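import Mathlib
import Pool.Agent.V7H83.CZ.J

/-!
# Central values of families of L-functions: a local law, and criteria for the Lindelöf bound

Let `D i`, `i` in an index set, be L-functions of degree `n` with the analytic properties known for the standard
L-functions of cuspidal representations (`IsStandard θ`, with one `θ < 1/2`), let `N i ≥ 1` be a size, and suppose
that the analytic conductor at the centre is at least `N i / C` and at most `C (N i)^k`.  For Q1: `π` is fixed, `i` runs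
over the square-free `D` of the ring of integers of `F`, `n = 2 [F : ℚ]`, the L-function is
`L(π ⊗ χ_D, s)` regarded as an Euler product over the rational primes, `N = |D|_{S_∞}` and `k = 2`.

Q1 is the bound `CentralBound`: `|L_i(1/2)| ≤ C_β (N i)^β` for all `β > 0`.

* (A) (local law, unconditional) For all `β, h > 0` there is `c > 0` such that, if `N i` is large,
  `|T| ≤ H` and `|L_i(1/2 + iT)| ≥ (N i)^β`, then `L_i` has at least `c log N i` zeros (with multiplicity) with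
  `Re s ≥ 1/2 + c` and `|Im s - T| ≤ h`, and `|L_i(1/2 + it)| ≥ (N i)^c` on a set of measure at least `c` of `t` with
  `|t - T| ≤ h`.  So a large central value is never isolated: in every box about the real axis, as thin as we wish,
  there are many zeros far from the critical line, and on every segment about the centre there are many large values.
* (B) (multipliers, unconditional) Let `ν` be a probability measure carried by a compact part of `Re z ≥ 0` and charging
  every strip `Re z < δ`.  For all `β > 0`, `B`, `σ₀` there are `c, H' > 0` such that, if `N i` is large and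
  `|L_i(1/2 + iT)| ≥ (N i)^β`, `|T| ≤ H`, then for all multipliers `g` the geometric mean of `|L_i g|`
  with respect to `ν` about `1/2 + it` is at least `(N i)^c` on a set of measure at least `c` of `t` with
  `|t - T| ≤ H'`: no mollifier can make `L_i` small near a large value, not even in the geometric mean and off a small set.
* (C) (criteria for Q1) The bound for the central values follows from each of: for ONE `h > 0`, for all `η > 0`,
  `L_i` has at most `η log N i` zeros with `Re s ≥ 1/2 + η`, `|Im s| ≤ h`, if `N i` is large; for ONE `h > 0`, for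
  all `η > 0`, `|L_i(1/2 + it)| ≤ (N i)^η` for `|t| ≤ h` off a set of measure `η`, if `N i` is large; for one `ν` as in (B)
  and all `η, H' > 0`, if `N i` is large there is a multiplier `g`, which may depend on `i`, such that the geometric mean
  of `|L_i g|` is at most `(N i)^η` for `|t| ≤ H'` off a set of measure `η`.
* (D) (equivalences) The bound for all heights, `|L_i(1/2 + it)| ≤ (N i)^β` for `|t| ≤ H` and `N i` large (for
  all `β, H > 0`), is equivalent to each of: for all `η, H > 0` there are at most `η log N i` zeros with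
  `Re s ≥ 1/2 + η`, `|Im s| ≤ H`, if `N i` is large; for one (for all) `ν` carried by a bounded segment of the
  imaginary axis the condition of (C) on multipliers.

Proof.  (A): the completed L-function divided by its size at the right is `O(exp(K (1 + |u|²)))`, symmetric by
the functional equation.  If it is large at the centre, then it is large at points `ρ + iy` near the centre, by
subharmonicity with a localizing factor; and if there are few zeros in the thin box, the three circles theorem,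
in a domain which is the image of a disc under a logarithm and lies in a thin neighbourhood of a horizontal segment,
carries the bound `exp(o(log N))` from the right to these points.  Large values on a segment: the Poisson
inequality for the L-function times a power of `1/(1 + (s - s_0)/h)`, which makes the values outside the
segment harmless.  (B): the zeros of (A) are zeros of `L_i g`; Poisson-Jensen inequality in the half plane, as in the work
of helper52 of this project (`Pool.Agent.V7H52.GM`) for the zeta function.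
-/

set_option autoImplicit false

open MeasureTheory

namespace Pool.Agent.Results.MP_21d687_nt.CentralValuesH83

/-- The data of an L-function of degree `n` over the rationals: the arithmetic conductor `q`, the
archimedean parameters `μ j` (the gamma factor is `∏ j, Γ_ℝ(s + μ j)`), the Satake parameters `α p j` at the
primes `p` (some of them zero at ramified primes), the root number `w` and the completed L-function `Λ`. -/
structure StdL (n : ℕ) where
  /-- the arithmetic conductor -/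
  q : ℕ
  /-- the archimedean parameters -/
  μ : Fin n → ℂ
  /-- the Satake parameters -/
  α : ℕ → Fin n → ℂ
  /-- the root number -/
  w : ℂ
  /-- the completed L-function -/
  Λ : ℂ → ℂ

/-- The L-function `L(s) = Λ(s) q^{-s/2} ∏ j, Γ_ℝ(s + μ j)⁻¹`. -/
noncomputable def StdL.L {n : ℕ} (D : StdL n) (s : ℂ) : ℂ :=
  D.Λ s * ((D.q : ℂ) ^ (s / 2) * ∏ j, Complex.Gammaℝ (s + D.μ j))⁻¹

/-- The analytic conductor `Q(1/2 + it) = q ∏ j, (1 + |1/2 + it + μ j|)`. -/
noncomputable def StdL.Q {n : ℕ} (D : StdL n) (t : ℝ) : ℝ :=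
  D.q * ∏ j, (1 + ‖1 / 2 + (t : ℂ) * Complex.I + D.μ j‖)

/-- The analytic properties of the L-functions. -/
structure StdL.IsStandard {n : ℕ} (D : StdL n) (θ : ℝ) : Prop where
  /-- the conductor is positive -/
  q_pos : 0 < D.q
  /-- the root number has absolute value one -/
  w_norm : ‖D.w‖ = 1
  /-- the bound for the Satake parameters -/
  satake : ∀ p : ℕ, p.Prime → ∀ j, ‖D.α p j‖ ≤ (p : ℝ) ^ θ
  /-- the bound for the archimedean parameters -/
  arch : ∀ j, -θ ≤ (D.μ j).re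
  /-- the completed L-function is entire -/
  entire : Differentiable ℂ D.Λ
  /-- it is of finite order in vertical strips -/
  order : ∀ a b : ℝ, ∃ M : ℝ, ∀ s : ℂ, a ≤ s.re → s.re ≤ b → ‖D.Λ s‖ ≤ Real.exp (M * (1 + |s.im|))
  /-- the Euler product in the half plane `Re s > 1` -/
  euler : ∀ s : ℂ, 1 < s.re →
    HasProd (fun p : Nat.Primes => ∏ j, (1 - D.α p j * ((p : ℕ) : ℂ) ^ (-s))⁻¹) (D.L s)
  /-- there are no zeros in this half plane -/
  ne_zero : ∀ s : ℂ, 1 < s.re → D.Λ s ≠ 0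
  /-- the functional equation -/
  functional : ∀ s : ℂ, D.Λ s = D.w * (starRingEnd ℂ) (D.Λ (1 - (starRingEnd ℂ) s))

/-- A family of such L-functions, with a size comparable to the conductor. -/
structure Family {n : ℕ} {ι : Type*} (θ C k : ℝ) (D : ι → StdL n) (N : ι → ℝ) : Prop where
  /-- the analytic properties -/
  standard : ∀ i, (D i).IsStandard θ
  /-- the size -/
  one_le : ∀ i, 1 ≤ N i
  /-- the conductor is not small -/
  lower : ∀ i, N i ≤ C * (D i).Q 0
  /-- the conductor is not large -/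
  upper : ∀ i, (D i).Q 0 ≤ C * N i ^ k

variable {n : ℕ} {ι : Type*}

/-- The Lindelöf bound for the central values, as in Q1. -/
def CentralBound (D : ι → StdL n) (N : ι → ℝ) : Prop := ∀ β : ℝ, 0 < β → ∃ C X : ℝ, ∀ i, X ≤ N i →
  ‖(D i).L (1 / 2)‖ ≤ C * N i ^ β

/-- At least `x` zeros of `f` (with multiplicity) satisfy `Re s ≥ 1/2 + η`, `|Im s - T| ≤ h`. -/
def ManyZeros (f : ℂ → ℂ) (η h T x : ℝ) : Prop := ∃ S : Finset ℂ,
  (∀ s ∈ S, f s = 0 ∧ 1 / 2 + η ≤ s.re ∧ |s.im - T| ≤ h) ∧ x ≤ ∑ s ∈ S, (analyticOrderNatAt f s : ℝ)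

/-- At most `x` zeros of `f` (with multiplicity) satisfy `Re s ≥ 1/2 + η`, `|Im s - T| ≤ h`. -/
def FewZeros (f : ℂ → ℂ) (η h T x : ℝ) : Prop := ∀ S : Finset ℂ,
  (∀ s ∈ S, f s = 0 ∧ 1 / 2 + η ≤ s.re ∧ |s.im - T| ≤ h) → ∑ s ∈ S, (analyticOrderNatAt f s : ℝ) ≤ x

/-- The geometric mean `exp ∫ log |f(1/2 + it + z)| dν(z)`, as the infimum (the limit) over `m` of the same
expression with `max(|f|, e^(-m))` in place of `|f|`. -/
noncomputable def GM (ν : Measure ℂ) (f : ℂ → ℂ) (t : ℝ) : ℝ :=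
  ⨅ m : ℕ, Real.exp (∫ z, Real.log (max ‖f (1 / 2 + t * Complex.I + z)‖ (Real.exp (-(m : ℝ)))) ∂ν)

/-- `ν` is a probability measure carried by `Re z ≥ 0`, `|z| ≤ R`, and every strip `Re z < δ`, `δ > 0`, has positive
mass. -/
def Averaging (ν : Measure ℂ) (R : ℝ) : Prop := IsProbabilityMeasure ν ∧ (∀ᵐ z ∂ν, 0 ≤ z.re ∧ ‖z‖ ≤ R) ∧
  ∀ δ : ℝ, 0 < δ → 0 < ν {z : ℂ | z.re < δ}

/-- `ν` is a probability measure carried by a bounded segment of the imaginary axis. -/
def OnAxis (ν : Measure ℂ) (R : ℝ) : Prop := IsProbabilityMeasure ν ∧ ∀ᵐ z ∂ν, z.re = 0 ∧ |z.im| ≤ R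

/-- Multipliers at the height `T` for the size `N`. -/
def Multiplier (B σ₀ R η N T : ℝ) (g : ℂ → ℂ) : Prop :=
  (∀ s : ℂ, 1 / 2 ≤ s.re → AnalyticAt ℂ g s) ∧
  (∀ s : ℂ, 1 / 2 ≤ s.re → ‖g s‖ ≤ (N + ‖s - T * Complex.I‖) ^ B) ∧
  (∀ s : ℂ, σ₀ ≤ s.re → |s.im - T| ≤ R → N ^ (-η) ≤ ‖g s‖)

/-- The Lindelöf bound on every bounded range of heights. -/
def LindelofBounded (D : ι → StdL n) (N : ι → ℝ) : Prop := ∀ β H : ℝ, 0 < β → 0 < H → ∃ X : ℝ, ∀ i, X ≤ N i →
  ∀ T : ℝ, |T| ≤ H → ‖(D i).L (1 / 2 + T * Complex.I)‖ ≤ N i ^ β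

/-- The condition on multipliers: for all `η, H > 0` and `N i` large there is a multiplier `g` with
geometric means `≤ (N i)^η` at the `t` with `|t| ≤ H`, off a set of measure `η`. -/
def SmallMeans (D : ι → StdL n) (N : ι → ℝ) (ν : Measure ℂ) (B σ₀ R : ℝ) : Prop := ∀ η H : ℝ, 0 < η → 0 < H →
  ∃ X : ℝ, ∀ i, X ≤ N i → ∃ g : ℂ → ℂ, Multiplier B σ₀ R η (N i) 0 g ∧
    volume {t : ℝ | |t| ≤ H ∧ N i ^ η < GM ν (fun s => (D i).L s * g s) t} ≤ ENNReal.ofReal η

open Pool.Agent.V7H83.CZ Pool.Agent.V7H89.GL Pool.Agent.W169.HF H353.E H353.F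

/-- the data in the form of the library -/
lemma dat_of (D : StdL n) {θ : ℝ} (hθ0 : 0 ≤ θ) (hθ : θ < 1 / 2) (H : D.IsStandard θ) :
    Dat θ (D.q : ℝ) (fun j => -D.μ j) (fun j p => D.α p j) D.w
      (fun s => D.Λ s * ((D.q : ℂ) ^ (s / 2))⁻¹) := by
  have hq : (1 : ℝ) ≤ D.q := by exact_mod_cast H.q_pos
  have hq0 : (D.q : ℂ) ≠ 0 := by
    have := H.q_pos
    exact_mod_cast this.ne'
  have hpow : ∀ s : ℂ, (D.q : ℂ) ^ (s / 2) ≠ 0 := fun s => by
    rw [Ne, Complex.cpow_eq_zero_iff]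
    exact fun h => hq0 h.1
  have hXX : ∀ s : ℂ, XX (D.q : ℝ) (fun s => D.Λ s * ((D.q : ℂ) ^ (s / 2))⁻¹) s = D.Λ s := fun s => by
    unfold XX
    rw [Complex.ofReal_natCast]
    field_simp [hpow s]
  refine ⟨⟨hq, fun j => ?_, fun j p hp => H.satake p hp j, H.w_norm, ?_, fun s hs => ?_, fun s => ?_,
    fun a b => ?_⟩, fun j => ?_, fun s hs => ?_⟩
  · have := H.arch j
    simp only [Complex.neg_re]
    linarith
  · refine H.entire.mul ?_
    have e : (fun s : ℂ => ((D.q : ℂ) ^ (s / 2))⁻¹) = fun s => (D.q : ℂ) ^ (-(s / 2)) := by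
      funext s
      rw [Complex.cpow_neg]
    rw [e]
    intro z
    exact ((((hasDerivAt_id z).div_const 2).neg).const_cpow (c := (D.q : ℂ)) (Or.inl hq0)).differentiableAt
  · have h1 := (H.euler s (by linarith)).tprod_eq
    rw [h1]
    unfold StdL.L
    have hne : ∏ j, Complex.Gammaℝ (s + D.μ j) ≠ 0 := by
      refine Finset.prod_ne_zero_iff.2 fun j _ => Complex.Gammaℝ_ne_zero_of_re_pos ?_
      have := H.arch j
      rw [Complex.add_re]
      linarith
    simp only [sub_neg_eq_add]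
    rw [mul_inv]
    field_simp [hpow s]
  · have h1 := H.functional s
    rw [h1, map_mul, map_inv₀]
    have h2 : (starRingEnd ℂ) ((D.q : ℂ) ^ ((1 - (starRingEnd ℂ) s) / 2)) = (D.q : ℂ) ^ ((1 - s) / 2) := by
      have := conj_cpow_real (N := (D.q : ℝ)) (by linarith) ((1 - (starRingEnd ℂ) s) / 2)
      rw [Complex.ofReal_natCast] at this
      rw [this]
      congr 1
      rw [map_div₀, map_sub, Complex.conj_conj, map_one, map_ofNat]
    rw [h2, Complex.ofReal_natCast]
    have h3 : (D.q : ℂ) ^ (1 / 2 - s) * ((D.q : ℂ) ^ ((1 - s) / 2))⁻¹ = ((D.q : ℂ) ^ (s / 2))⁻¹ := by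
      rw [← Complex.cpow_neg, ← Complex.cpow_neg, ← Complex.cpow_add _ _ hq0]
      congr 1
      ring
    rw [← h3]
    ring
  · obtain ⟨M, hM⟩ := H.order a b
    refine ⟨M + (|a| + |b|) * Real.log D.q, fun s h1 h2 => ?_⟩
    rw [norm_mul, norm_inv, Complex.norm_natCast_cpow_of_pos H.q_pos]
    have h3 := hM s h1 h2
    have hlog := Real.log_nonneg hq
    have hre : (s / 2).re = s.re / 2 := by
      rw [show (2 : ℂ) = ((2 : ℝ) : ℂ) by norm_num, Complex.div_ofReal_re]
    rw [hre, ← Real.rpow_neg (by linarith), Real.rpow_def_of_pos (by linarith)]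
    refine (mul_le_mul_of_nonneg_right h3 (Real.exp_pos _).le).trans ?_
    rw [← Real.exp_add]
    apply Real.exp_le_exp.2
    have h4 : -(s.re / 2) ≤ |a| + |b| := by
      have := neg_abs_le a
      have := abs_nonneg b
      have := abs_nonneg a
      linarith
    have h5 : Real.log D.q * -(s.re / 2) ≤ Real.log D.q * (|a| + |b|) := mul_le_mul_of_nonneg_left h4 hlog
    have h6 : 0 ≤ (|a| + |b|) * Real.log D.q * |s.im| := by positivity
    nlinarith
  · have := H.arch j
    simp only [Complex.neg_re]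
    linarith
  · rw [hXX]
    exact H.ne_zero s hs

lemma XX_eq (D : StdL n) (hq : 0 < D.q) :
    XX (D.q : ℝ) (fun s => D.Λ s * ((D.q : ℂ) ^ (s / 2))⁻¹) = D.Λ := by
  have hq0 : (D.q : ℂ) ≠ 0 := by exact_mod_cast hq.ne'
  funext s
  unfold XX
  have hpow : (D.q : ℂ) ^ (s / 2) ≠ 0 := by
    rw [Ne, Complex.cpow_eq_zero_iff]
    exact fun h => hq0 h.1
  rw [Complex.ofReal_natCast]
  field_simp [hpow]

lemma LL_eq (D : StdL n) (hq : 0 < D.q) (s : ℂ) :
    LL (D.q : ℝ) (fun j => -D.μ j) (fun s => D.Λ s * ((D.q : ℂ) ^ (s / 2))⁻¹) s = D.L s := by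
  unfold LL StdL.L gaf
  rw [XX_eq D hq]
  simp only [sub_neg_eq_add, Complex.ofReal_natCast]

lemma cq_eq (D : StdL n) (t : ℝ) : cq (D.q : ℝ) (fun j => -D.μ j) t = D.Q t := by
  unfold cq StdL.Q
  simp only [sub_neg_eq_add]

lemma mem_of (D : StdL n) {θ : ℝ} (hθ0 : 0 ≤ θ) (hθ : θ < 1 / 2) (H : D.IsStandard θ) : Mem θ n D.L D.Q :=
  ⟨_, _, _, _, _, dat_of D hθ0 hθ H, funext fun s => (LL_eq D H.q_pos s).symm, funext fun t => (cq_eq D t).symm⟩

lemma fam_of {θ C k : ℝ} (hθ0 : 0 ≤ θ) (hθ : θ < 1 / 2) (hC : 1 ≤ C) (hk : 0 ≤ k) {D : ι → StdL n} {N : ι → ℝ}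
    (h : Family θ C k D N) : Fam θ n (fun i => (D i).L) (fun i => (D i).Q) N C k :=
  ⟨fun i => mem_of (D i) hθ0 hθ (h.standard i), hC, hk, h.lower, h.upper, h.one_le⟩

lemma mult_iff {B σ₀ R η N T : ℝ} {g : ℂ → ℂ} : Multiplier B σ₀ R η N T g ↔ MulN B σ₀ R η N T g :=
  ⟨fun h => ⟨h.1, h.2.1, h.2.2⟩, fun h => ⟨h.an, h.up, h.low⟩⟩

lemma R_nonneg {ν : Measure ℂ} {R : ℝ} (h : Averaging ν R) : 0 ≤ R := by
  obtain ⟨h1, h2, -⟩ := h
  obtain ⟨z, hz⟩ := h2.exists
  exact (norm_nonneg z).trans hz.2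

lemma R_nonneg' {ν : Measure ℂ} {R : ℝ} (h : OnAxis ν R) : 0 ≤ R := by
  obtain ⟨h1, h2⟩ := h
  obtain ⟨z, hz⟩ := h2.exists
  exact (abs_nonneg _).trans hz.2

lemma averaging_of_axis {ν : Measure ℂ} {R : ℝ} (h : OnAxis ν R) : Averaging ν R := by
  obtain ⟨h1, h2⟩ := h
  refine ⟨h1, ?_, fun δ hδ => ?_⟩
  · filter_upwards [h2] with z hz
    refine ⟨hz.1.ge, ?_⟩
    have := Complex.norm_le_abs_re_add_abs_im z
    rw [hz.1, abs_zero, zero_add] at this
    exact this.trans hz.2
  · have h3 : ν {z : ℂ | z.re < δ}ᶜ = 0 := by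
      have h4 : ∀ᵐ z ∂ν, z ∈ {z : ℂ | z.re < δ} := by
        filter_upwards [h2] with z hz
        show z.re < δ
        rw [hz.1]
        exact hδ
      exact h4
    have h5 : ν {z : ℂ | z.re < δ} = 1 := by
      have hm : MeasurableSet {z : ℂ | z.re < δ} := (isOpen_lt Complex.continuous_re continuous_const).measurableSet
      have := measure_add_measure_compl (μ := ν) hm
      rw [h3, add_zero, measure_univ] at this
      exact this
    rw [h5]
    exact one_pos

theorem result (hn : 1 ≤ n) {θ C k : ℝ} (hθ0 : 0 ≤ θ) (hθ : θ < 1 / 2) (hC : 1 ≤ C) (hk : 0 ≤ k)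
    (D : ι → StdL n) (N : ι → ℝ) (hD : Family θ C k D N) :
    -- (A) the local law for zeros and values
    (∀ β h H : ℝ, 0 < β → 0 < h → 0 ≤ H → ∃ c X : ℝ, 0 < c ∧ ∀ i, X ≤ N i → ∀ T : ℝ, |T| ≤ H →
      N i ^ β ≤ ‖(D i).L (1 / 2 + T * Complex.I)‖ →
        ManyZeros (D i).L c h T (c * Real.log (N i)) ∧
        ENNReal.ofReal c ≤ volume {t : ℝ | |t - T| ≤ h ∧ N i ^ c ≤ ‖(D i).L (1 / 2 + t * Complex.I)‖}) ∧
    -- (B) the local law for geometric means with multipliers
    (∀ (ν : Measure ℂ) (R : ℝ), Averaging ν R → ∀ β B σ₀ H : ℝ, 0 < β → 0 ≤ B → 0 ≤ H →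
      ∃ c H' X : ℝ, 0 < c ∧ 0 < H' ∧ ∀ i, X ≤ N i → ∀ T : ℝ, |T| ≤ H →
        N i ^ β ≤ ‖(D i).L (1 / 2 + T * Complex.I)‖ → ∀ g : ℂ → ℂ, Multiplier B σ₀ R c (N i) T g →
          ENNReal.ofReal c ≤ volume {t : ℝ | |t - T| ≤ H' ∧ N i ^ c ≤ GM ν (fun s => (D i).L s * g s) t}) ∧
    -- (C) criteria for the bound of the central values
    ((∃ h : ℝ, 0 < h ∧ ∀ η : ℝ, 0 < η → ∃ X : ℝ, ∀ i, X ≤ N i → FewZeros (D i).L η h 0 (η * Real.log (N i))) →
      CentralBound D N) ∧
    ((∃ h : ℝ, 0 < h ∧ ∀ η : ℝ, 0 < η → ∃ X : ℝ, ∀ i, X ≤ N i →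
        volume {t : ℝ | |t| ≤ h ∧ N i ^ η < ‖(D i).L (1 / 2 + t * Complex.I)‖} ≤ ENNReal.ofReal η) →
      CentralBound D N) ∧
    ((∃ (ν : Measure ℂ) (B σ₀ R : ℝ), 0 ≤ B ∧ Averaging ν R ∧ SmallMeans D N ν B σ₀ R) → CentralBound D N) ∧
    -- (D) equivalences for the bound on bounded ranges of heights
    (LindelofBounded D N ↔ ∀ η H : ℝ, 0 < η → 0 < H → ∃ X : ℝ, ∀ i, X ≤ N i →
      FewZeros (D i).L η H 0 (η * Real.log (N i))) ∧
    (∀ (ν : Measure ℂ) (B σ₀ R : ℝ), 0 ≤ B → OnAxis ν R → (LindelofBounded D N ↔ SmallMeans D N ν B σ₀ R)) ∧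
    (∀ (ν : Measure ℂ) (B σ₀ R : ℝ), 0 ≤ B → Averaging ν R → SmallMeans D N ν B σ₀ R → LindelofBounded D N) := by
  have F := fam_of hθ0 hθ hC hk hD
  have hcb : (∀ β : ℝ, 0 < β → ∃ X : ℝ, ∀ i, X ≤ N i → ∀ T : ℝ, |T| ≤ 0 →
      ‖(D i).L (1 / 2 + T * Complex.I)‖ ≤ N i ^ β) → CentralBound D N := by
    intro h β hβ
    obtain ⟨X, hX⟩ := h β hβ
    refine ⟨1, X, fun i hi => ?_⟩
    have := hX i hi 0 (by simp)
    simpa using this
  have hmol : ∀ (ν : Measure ℂ) (B σ₀ R : ℝ), SmallMeans D N ν B σ₀ R → Mol (fun i => (D i).L) N ν B σ₀ R := by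
    intro ν B σ₀ R h η H hη hH
    obtain ⟨X, hX⟩ := h η H hη hH
    refine ⟨X, fun i hi => ?_⟩
    obtain ⟨g, hg, h2⟩ := hX i hi
    exact ⟨g, mult_iff.1 hg, h2⟩
  have hmol' : ∀ (ν : Measure ℂ) (B σ₀ R : ℝ), Mol (fun i => (D i).L) N ν B σ₀ R → SmallMeans D N ν B σ₀ R := by
    intro ν B σ₀ R h η H hη hH
    obtain ⟨X, hX⟩ := h η H hη hH
    refine ⟨X, fun i hi => ?_⟩
    obtain ⟨g, hg, h2⟩ := hX i hi
    exact ⟨g, mult_iff.2 hg, h2⟩
  have hfew : Few (fun i => (D i).L) N ↔ ∀ η H : ℝ, 0 < η → 0 < H → ∃ X : ℝ, ∀ i, X ≤ N i →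
      FewZeros (D i).L η H 0 (η * Real.log (N i)) := by
    unfold Few FewZeros
    simp only [sub_zero]
    rfl
  have hzero : (0 : ℝ) ≤ 0 := le_rfl
  have hpoint : OnAxis (Measure.dirac (0 : ℂ)) 0 := by
    refine ⟨inferInstance, ?_⟩
    rw [ae_dirac_iff]
    · simp
    · exact (isClosed_eq Complex.continuous_re continuous_const).measurableSet.inter
        (isClosed_le (continuous_abs.comp Complex.continuous_im) continuous_const).measurableSet
  refine ⟨?_, ?_, ?_, ?_, ?_, ?_, ?_, ?_⟩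
  · -- (A)
    intro β h H hβ hh hH
    obtain ⟨c, X, hc, -, H1⟩ := F.local hn hθ0 hθ hβ hh hH
    exact ⟨c, X, hc, fun i hi T hT hbig => H1 i hi T hT hbig⟩
  · -- (B)
    intro ν R hν β B σ₀ H hβ hB hH
    have hR := R_nonneg hν
    obtain ⟨hprob, hcar, hδ⟩ := hν
    obtain ⟨c, H', X, hc, hH', -, H1⟩ := F.law hn hθ0 hθ hR hcar hδ (σ0 := σ₀) hβ hB hH
    exact ⟨c, H', X, hc, hH', fun i hi T hT hbig g hg => H1 i hi T hT hbig g (mult_iff.1 hg)⟩
  · -- (C1)
    rintro ⟨h, hh, hz⟩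
    refine hcb fun β hβ => F.crit_zero hn hθ0 hθ hzero hh (fun η hη => ?_) hβ
    obtain ⟨X, hX⟩ := hz η hη
    refine ⟨X, fun i hi T hT S hS => ?_⟩
    have hT0 : T = 0 := abs_eq_zero.1 (le_antisymm hT (abs_nonneg _))
    subst hT0
    exact hX i hi S hS
  · -- (C2)
    rintro ⟨h, hh, hz⟩
    refine hcb fun β hβ => F.crit_meas hn hθ0 hθ hzero hh (fun η hη => ?_) hβ
    obtain ⟨X, hX⟩ := hz η hη
    refine ⟨X, fun i hi T hT => ?_⟩
    have hT0 : T = 0 := abs_eq_zero.1 (le_antisymm hT (abs_nonneg _))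
    subst hT0
    have := hX i hi
    simpa only [sub_zero] using this
  · -- (C3)
    rintro ⟨ν, B, σ₀, R, hB, hν, hs⟩
    have hR := R_nonneg hν
    obtain ⟨hprob, hcar, hδ⟩ := hν
    refine hcb fun β hβ => F.crit_mult hn hθ0 hθ hR hcar hδ (σ0 := σ₀) hB hzero (fun η H' hη hH' => ?_) hβ
    obtain ⟨X, hX⟩ := hs η H' hη hH'
    refine ⟨X, fun i hi T hT => ?_⟩
    have hT0 : T = 0 := abs_eq_zero.1 (le_antisymm hT (abs_nonneg _))
    subst hT0
    obtain ⟨g, hg, h2⟩ := hX i hi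
    refine ⟨g, mult_iff.1 hg, ?_⟩
    simp only [sub_zero]
    exact h2
  · -- (D1)
    rw [← hfew]
    constructor
    · intro h
      have hR := R_nonneg' hpoint
      have hav := averaging_of_axis hpoint
      exact F.few_of_mol hn hθ0 hθ hR hav.2.1 hav.2.2 (B := 0) (σ0 := 0) le_rfl
        (F.mol_of_lin hn hθ0 hθ hR hpoint.2 0 le_rfl h)
    · intro h
      exact F.lin_of_few hn hθ0 hθ h
  · -- (D2)
    intro ν B σ₀ R hB hν
    have hR := R_nonneg' hν
    have hav := averaging_of_axis hν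
    have := hν.1
    constructor
    · intro h
      exact hmol' _ _ _ _ (F.mol_of_lin hn hθ0 hθ hR hν.2 σ₀ hB h)
    · intro h
      exact F.lin_of_few hn hθ0 hθ (F.few_of_mol hn hθ0 hθ hR hav.2.1 hav.2.2 hB (hmol _ _ _ _ h))
  · -- (D3)
    intro ν B σ₀ R hB hν h
    have hR := R_nonneg hν
    obtain ⟨hprob, hcar, hδ⟩ := hν
    exact F.lin_of_few hn hθ0 hθ (F.few_of_mol hn hθ0 hθ hR hcar hδ hB (hmol _ _ _ _ h))

end Pool.Agent.Results.MP_21d687_nt.CentralValuesH83
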