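import Mathlib
import Pool.Agent.V7H88.NV.D

/-!
# Central values of families of L-functions and the values of `P(d/ds) L` near the centre

Let `D i`, `i` in an index set, be L-functions of degree `n` with the analytic properties known for the standard
L-functions of cuspidal representations (`IsStandard θ`, with one `θ < 1/2`), let `N i ≥ 1` be a size, and suppose
that the analytic conductor at the centre is at least `N i / C` and at most `C (N i)^k`.  For Q1: `π` is fixed, `i` runs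
over the square-free `D` of the ring of integers of `F`, `n = 2 [F : ℚ]`, the L-function is
`L(π ⊗ χ_D, s)` regarded as an Euler product over the rational primes, `N = |D|_{S_∞}` and `k = 2`.

Let `P` be a polynomial, not zero, and `P(d/ds) L_i = ∑ c_j L_i^(j)`.  A *target* is an analytic function `A` on a box
to the right of the critical line which is small, `|A| ≤ (N i)^c`, and keeps a distance `≥ δ₀` from `P(0)` far to
the right (`P(0)` is the limit of `P(d/ds) L_i` there); for example a constant `a ≠ P(0)`.  All solutions `s` of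
`P(d/ds) L_i (s) = A(s)` are counted with their multiplicities, and all heights below are bounded.

* (A) (unconditional) For all `β, h > 0` there is `c > 0` such that, if `N i` is large, `|T| ≤ H₀` and
  `|L_i(1/2 + iT)| ≥ (N i)^β`, then `P(d/ds) L_i` agrees with EVERY target `A` at at least `c log N i` points of the
  thin box `1/2 + c ≤ Re s ≤ 1/c`, `|Im s - T| ≤ h`.  In particular, if a central value is at least `(N i)^β` then
  `P(d/ds) L_i` takes every value `a` with `|a| ≤ (N i)^c`, `|a - P(0)| ≥ δ₀` at least `c log N i` times in this box.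
* (B) (unconditional) For all `δ, ε > 0` and `B`, `R` there are `c, H > 0` such that, if `N i` is large and
  `|L_i(1/2 + it)| ≤ (N i)^c` for `|t - T| ≤ H`, then `P(d/ds) L_i` agrees with every target at at most
  `ε log N i` points of the box `1/2 + δ ≤ Re s ≤ B`, `|Im s - T| ≤ R`.
* (C) (criterion) For every family of targets `A i` (for example constants `a i` with `|a i| = (N i)^{o(1)}` and
  `|a i - P(0)| ≥ δ₀`) the Lindelöf bound on bounded ranges of heights is equivalent to: for all `η, H > 0` there are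
  at most `η log N i` solutions of `P(d/ds) L_i = A i` with `1/2 + η ≤ Re s ≤ 1/η`, `|Im s - T| ≤ 1`, `|T| ≤ H`.
* (D) The bound of Q1 for the central values follows if, for ONE `P`, one family of targets and one `h > 0`, for
  all `η > 0` there are at most `η log N i` such solutions with `1/2 + η ≤ Re s ≤ 1/η`, `|Im s| ≤ h`.

Proof.  Few solutions imply `P(d/ds) L = O(N^ε)` in thin boxes (Backlund's argument in the thin form of helper83, from a
disc far to the right), the operator `P(d/ds)` is inverted along horizontal segments, and the maximum principle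
leads to the critical line; Jensen's formula gives the converse; see the modules `V7H88.NV`.
-/

set_option autoImplicit false

namespace Pool.Agent.Results.MP_21d687_nt.DerivativeValuesH88

/-- The data of an L-function of degree `n` over the rationals: the arithmetic conductor `q`, the
archimedean parameters `μ j` (the gamma factor is `∏ j, Γ_ℝ(s + μ j)`), the Satake parameters `α p j` at the
primes `p` (some of them zero at ramified primes), the root number `w` and the completed L-function `Λ`. -/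
structure StdL (n : ℕ) where
  /-- the arithmetic conductor -/
  q : ℕ
  /-- the archimedean parameters -/
  μ : Fin n → ℂ
  /-- the Satake parameters -/
  α : ℕ → Fin n → ℂ
  /-- the root number -/
  w : ℂ
  /-- the completed L-function -/
  Λ : ℂ → ℂ

/-- The L-function `L(s) = Λ(s) q^{-s/2} ∏ j, Γ_ℝ(s + μ j)⁻¹`. -/
noncomputable def StdL.L {n : ℕ} (D : StdL n) (s : ℂ) : ℂ :=
  D.Λ s * ((D.q : ℂ) ^ (s / 2) * ∏ j, Complex.Gammaℝ (s + D.μ j))⁻¹

/-- The analytic conductor `Q(1/2 + it) = q ∏ j, (1 + |1/2 + it + μ j|)`. -/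
noncomputable def StdL.Q {n : ℕ} (D : StdL n) (t : ℝ) : ℝ :=
  D.q * ∏ j, (1 + ‖1 / 2 + (t : ℂ) * Complex.I + D.μ j‖)

/-- The analytic properties of the L-functions. -/
structure StdL.IsStandard {n : ℕ} (D : StdL n) (θ : ℝ) : Prop where
  /-- the conductor is positive -/
  q_pos : 0 < D.q
  /-- the root number has absolute value one -/
  w_norm : ‖D.w‖ = 1
  /-- the bound for the Satake parameters -/
  satake : ∀ p : ℕ, p.Prime → ∀ j, ‖D.α p j‖ ≤ (p : ℝ) ^ θ
  /-- the bound for the archimedean parameters -/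
  arch : ∀ j, -θ ≤ (D.μ j).re
  /-- the completed L-function is entire -/
  entire : Differentiable ℂ D.Λ
  /-- it is of finite order in vertical strips -/
  order : ∀ a b : ℝ, ∃ M : ℝ, ∀ s : ℂ, a ≤ s.re → s.re ≤ b → ‖D.Λ s‖ ≤ Real.exp (M * (1 + |s.im|))
  /-- the Euler product in the half plane `Re s > 1` -/
  euler : ∀ s : ℂ, 1 < s.re →
    HasProd (fun p : Nat.Primes => ∏ j, (1 - D.α p j * ((p : ℕ) : ℂ) ^ (-s))⁻¹) (D.L s)
  /-- there are no zeros in this half plane -/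
  ne_zero : ∀ s : ℂ, 1 < s.re → D.Λ s ≠ 0
  /-- the functional equation -/
  functional : ∀ s : ℂ, D.Λ s = D.w * (starRingEnd ℂ) (D.Λ (1 - (starRingEnd ℂ) s))

/-- A family of such L-functions, with a size comparable to the conductor. -/
structure Family {n : ℕ} {ι : Type*} (θ C k : ℝ) (D : ι → StdL n) (N : ι → ℝ) : Prop where
  /-- the analytic properties -/
  standard : ∀ i, (D i).IsStandard θ
  /-- the size -/
  one_le : ∀ i, 1 ≤ N i
  /-- the conductor is not small -/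
  lower : ∀ i, N i ≤ C * (D i).Q 0
  /-- the conductor is not large -/
  upper : ∀ i, (D i).Q 0 ≤ C * N i ^ k

variable {n : ℕ} {ι : Type*}

/-- The Lindelöf bound for the central values, as in Q1. -/
def CentralBound (D : ι → StdL n) (N : ι → ℝ) : Prop := ∀ β : ℝ, 0 < β → ∃ C X : ℝ, ∀ i, X ≤ N i →
  ‖(D i).L (1 / 2)‖ ≤ C * N i ^ β

/-- The Lindelöf bound on every bounded range of heights. -/
def LindelofBounded (D : ι → StdL n) (N : ι → ℝ) : Prop := ∀ β H : ℝ, 0 < β → 0 < H → ∃ X : ℝ, ∀ i, X ≤ N i →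
  ∀ T : ℝ, |T| ≤ H → ‖(D i).L (1 / 2 + T * Complex.I)‖ ≤ N i ^ β

/-- `P(d/ds) f = ∑ c_j f^(j)` for `P = ∑ c_j X^j` -/
noncomputable def derP (P : Polynomial ℂ) (f : ℂ → ℂ) (s : ℂ) : ℂ :=
  ∑ j ∈ Finset.range (P.natDegree + 1), P.coeff j * iteratedDeriv j f s

/-- The number of the elements of `S`, counted with their multiplicities as zeros of `P(d/ds) f - A`. -/
noncomputable def count (P : Polynomial ℂ) (f A : ℂ → ℂ) (S : Finset ℂ) : ℝ :=
  ∑ s ∈ S, (analyticOrderNatAt (fun z => derP P f z - A z) s : ℝ)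

/-- `S` consists of solutions `s` of `P(d/ds) f (s) = A s` with `a ≤ Re s ≤ b` and `|Im s - T| ≤ h`. -/
def Sol (P : Polynomial ℂ) (f A : ℂ → ℂ) (a b T h : ℝ) (S : Finset ℂ) : Prop :=
  ∀ s ∈ S, derP P f s = A s ∧ a ≤ s.re ∧ s.re ≤ b ∧ |s.im - T| ≤ h

/-- `A` is a target for the size `x` on the box `1/2 + c ≤ Re s ≤ 1/c`, `|Im s - T| ≤ h`: it is analytic, bounded by
`x^c`, and its distance from `p` is at least `δ₀` for `Re s ≥ σ₀`. -/
def Target (p : ℂ) (σ₀ δ₀ x c T h : ℝ) (A : ℂ → ℂ) : Prop := ∀ s : ℂ, 1 / 2 + c ≤ s.re → s.re ≤ 1 / c →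
  |s.im - T| ≤ h → AnalyticAt ℂ A s ∧ ‖A s‖ ≤ x ^ c ∧ (σ₀ ≤ s.re → δ₀ ≤ ‖A s - p‖)

/-- The functions `A i` are targets for all `c > 0`, on every bounded range of heights, for `N i` large. -/
def Targets (p : ℂ) (σ₀ δ₀ : ℝ) (N : ι → ℝ) (A : ι → ℂ → ℂ) : Prop := ∀ c H : ℝ, 0 < c → 0 < H →
  ∃ X : ℝ, ∀ i, X ≤ N i → Target p σ₀ δ₀ (N i) c 0 H (A i)

open Pool.Agent.V7H88.NV Pool.Agent.V7H88.NF Pool.Agent.V7H83.CZ Pool.Agent.V7H89.GL Pool.Agent.W169.HF H353.E H353.F

/-- the data in the form of the library -/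
lemma dat_of (D : StdL n) {θ : ℝ} (hθ0 : 0 ≤ θ) (hθ : θ < 1 / 2) (H : D.IsStandard θ) :
    Dat θ (D.q : ℝ) (fun j => -D.μ j) (fun j p => D.α p j) D.w
      (fun s => D.Λ s * ((D.q : ℂ) ^ (s / 2))⁻¹) := by
  have hq : (1 : ℝ) ≤ D.q := by exact_mod_cast H.q_pos
  have hq0 : (D.q : ℂ) ≠ 0 := by
    have := H.q_pos
    exact_mod_cast this.ne'
  have hpow : ∀ s : ℂ, (D.q : ℂ) ^ (s / 2) ≠ 0 := fun s => by
    rw [Ne, Complex.cpow_eq_zero_iff]
    exact fun h => hq0 h.1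
  have hXX : ∀ s : ℂ, XX (D.q : ℝ) (fun s => D.Λ s * ((D.q : ℂ) ^ (s / 2))⁻¹) s = D.Λ s := fun s => by
    unfold XX
    rw [Complex.ofReal_natCast]
    field_simp [hpow s]
  refine ⟨⟨hq, fun j => ?_, fun j p hp => H.satake p hp j, H.w_norm, ?_, fun s hs => ?_, fun s => ?_,
    fun a b => ?_⟩, fun j => ?_, fun s hs => ?_⟩
  · have := H.arch j
    simp only [Complex.neg_re]
    linarith
  · refine H.entire.mul ?_
    have e : (fun s : ℂ => ((D.q : ℂ) ^ (s / 2))⁻¹) = fun s => (D.q : ℂ) ^ (-(s / 2)) := by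
      funext s
      rw [Complex.cpow_neg]
    rw [e]
    intro z
    exact ((((hasDerivAt_id z).div_const 2).neg).const_cpow (c := (D.q : ℂ)) (Or.inl hq0)).differentiableAt
  · have h1 := (H.euler s (by linarith)).tprod_eq
    rw [h1]
    unfold StdL.L
    have hne : ∏ j, Complex.Gammaℝ (s + D.μ j) ≠ 0 := by
      refine Finset.prod_ne_zero_iff.2 fun j _ => Complex.Gammaℝ_ne_zero_of_re_pos ?_
      have := H.arch j
      rw [Complex.add_re]
      linarith
    simp only [sub_neg_eq_add]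
    rw [mul_inv]
    field_simp [hpow s]
  · have h1 := H.functional s
    rw [h1, map_mul, map_inv₀]
    have h2 : (starRingEnd ℂ) ((D.q : ℂ) ^ ((1 - (starRingEnd ℂ) s) / 2)) = (D.q : ℂ) ^ ((1 - s) / 2) := by
      have := conj_cpow_real (N := (D.q : ℝ)) (by linarith) ((1 - (starRingEnd ℂ) s) / 2)
      rw [Complex.ofReal_natCast] at this
      rw [this]
      congr 1
      rw [map_div₀, map_sub, Complex.conj_conj, map_one, map_ofNat]
    rw [h2, Complex.ofReal_natCast]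
    have h3 : (D.q : ℂ) ^ (1 / 2 - s) * ((D.q : ℂ) ^ ((1 - s) / 2))⁻¹ = ((D.q : ℂ) ^ (s / 2))⁻¹ := by
      rw [← Complex.cpow_neg, ← Complex.cpow_neg, ← Complex.cpow_add _ _ hq0]
      congr 1
      ring
    rw [← h3]
    ring
  · obtain ⟨M, hM⟩ := H.order a b
    refine ⟨M + (|a| + |b|) * Real.log D.q, fun s h1 h2 => ?_⟩
    rw [norm_mul, norm_inv, Complex.norm_natCast_cpow_of_pos H.q_pos]
    have h3 := hM s h1 h2
    have hlog := Real.log_nonneg hq
    have hre : (s / 2).re = s.re / 2 := by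
      rw [show (2 : ℂ) = ((2 : ℝ) : ℂ) by norm_num, Complex.div_ofReal_re]
    rw [hre, ← Real.rpow_neg (by linarith), Real.rpow_def_of_pos (by linarith)]
    refine (mul_le_mul_of_nonneg_right h3 (Real.exp_pos _).le).trans ?_
    rw [← Real.exp_add]
    apply Real.exp_le_exp.2
    have h4 : -(s.re / 2) ≤ |a| + |b| := by
      have := neg_abs_le a
      have := abs_nonneg b
      have := abs_nonneg a
      linarith
    have h5 : Real.log D.q * -(s.re / 2) ≤ Real.log D.q * (|a| + |b|) := mul_le_mul_of_nonneg_left h4 hlog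
    have h6 : 0 ≤ (|a| + |b|) * Real.log D.q * |s.im| := by positivity
    nlinarith
  · have := H.arch j
    simp only [Complex.neg_re]
    linarith
  · rw [hXX]
    exact H.ne_zero s hs

lemma XX_eq (D : StdL n) (hq : 0 < D.q) :
    XX (D.q : ℝ) (fun s => D.Λ s * ((D.q : ℂ) ^ (s / 2))⁻¹) = D.Λ := by
  have hq0 : (D.q : ℂ) ≠ 0 := by exact_mod_cast hq.ne'
  funext s
  unfold XX
  have hpow : (D.q : ℂ) ^ (s / 2) ≠ 0 := by
    rw [Ne, Complex.cpow_eq_zero_iff]
    exact fun h => hq0 h.1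
  rw [Complex.ofReal_natCast]
  field_simp [hpow]

lemma LL_eq (D : StdL n) (hq : 0 < D.q) (s : ℂ) :
    LL (D.q : ℝ) (fun j => -D.μ j) (fun s => D.Λ s * ((D.q : ℂ) ^ (s / 2))⁻¹) s = D.L s := by
  unfold LL StdL.L gaf
  rw [XX_eq D hq]
  simp only [sub_neg_eq_add, Complex.ofReal_natCast]

lemma cq_eq (D : StdL n) (t : ℝ) : cq (D.q : ℝ) (fun j => -D.μ j) t = D.Q t := by
  unfold cq StdL.Q
  simp only [sub_neg_eq_add]

lemma mem_of (D : StdL n) {θ : ℝ} (hθ0 : 0 ≤ θ) (hθ : θ < 1 / 2) (H : D.IsStandard θ) : Mem θ n D.L D.Q :=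
  ⟨_, _, _, _, _, dat_of D hθ0 hθ H, funext fun s => (LL_eq D H.q_pos s).symm, funext fun t => (cq_eq D t).symm⟩

lemma fam_of {θ C k : ℝ} (hθ0 : 0 ≤ θ) (hθ : θ < 1 / 2) (hC : 1 ≤ C) (hk : 0 ≤ k) {D : ι → StdL n} {N : ι → ℝ}
    (h : Family θ C k D N) : Fam θ n (fun i => (D i).L) (fun i => (D i).Q) N C k :=
  ⟨fun i => mem_of (D i) hθ0 hθ (h.standard i), hC, hk, h.lower, h.upper, h.one_le⟩

lemma count_eq (P : Polynomial ℂ) (f A : ℂ → ℂ) (S : Finset ℂ) :
    count P f A S = ∑ s ∈ S, (H370.mult (fun z => Pool.Agent.V7H88.BS.PD P f z - A z) s : ℝ) := rfl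

lemma targ_of {P : Polynomial ℂ} {σ₀ δ₀ : ℝ} {N : ι → ℝ} {A : ι → ℂ → ℂ} (h : Targets (P.coeff 0) σ₀ δ₀ N A) :
    Targ P N σ₀ δ₀ A := by
  intro c H hc hH
  obtain ⟨X, hX⟩ := h c H hc hH
  exact ⟨X, fun i hi s h1 h2 h3 => hX i hi s h1 h2 (by rwa [sub_zero])⟩

/-- constants which are not too large and stay away from `P(0)` are targets -/
theorem targets_const {p : ℂ} {δ₀ : ℝ} {N : ι → ℝ} (a : ι → ℂ) (ha : ∀ i, δ₀ ≤ ‖a i - p‖)
    (hs : ∀ c : ℝ, 0 < c → ∃ X : ℝ, ∀ i, X ≤ N i → ‖a i‖ ≤ N i ^ c) (σ₀ : ℝ) :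
    Targets p σ₀ δ₀ N (fun i _ => a i) := by
  intro c H hc _
  obtain ⟨X, hX⟩ := hs c hc
  exact ⟨X, fun i hi s _ _ _ => ⟨analyticAt_const, hX i hi, fun _ => ha i⟩⟩

theorem result (hn : 1 ≤ n) {θ C k : ℝ} (hθ0 : 0 ≤ θ) (hθ : θ < 1 / 2) (hC : 1 ≤ C) (hk : 0 ≤ k)
    (D : ι → StdL n) (N : ι → ℝ) (hD : Family θ C k D N) (P : Polynomial ℂ) (hP : P ≠ 0) {σ₀ δ₀ : ℝ}
    (hδ₀ : 0 < δ₀) :
    -- (A) large values of `L`
    (∀ β h H₀ : ℝ, 0 < β → 0 < h → 0 ≤ H₀ → ∃ c X : ℝ, 0 < c ∧ ∀ i, X ≤ N i → ∀ T : ℝ, |T| ≤ H₀ →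
      N i ^ β ≤ ‖(D i).L (1 / 2 + T * Complex.I)‖ →
      ∀ A : ℂ → ℂ, Target (P.coeff 0) σ₀ δ₀ (N i) c T h A →
        ∃ S : Finset ℂ, Sol P (D i).L A (1 / 2 + c) (1 / c) T h S ∧ c * Real.log (N i) ≤ count P (D i).L A S) ∧
    -- (B) small values of `L`
    (∀ δ ε B R H₀ : ℝ, 0 < δ → 0 < ε → 0 ≤ R → 0 ≤ H₀ → ∃ c H X : ℝ, 0 < c ∧ 0 < H ∧ ∀ i, X ≤ N i →
      ∀ T : ℝ, |T| ≤ H₀ → (∀ t : ℝ, |t - T| ≤ H → ‖(D i).L (1 / 2 + t * Complex.I)‖ ≤ N i ^ c) →
      ∀ A : ℂ → ℂ, Target (P.coeff 0) σ₀ δ₀ (N i) c T H A →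
        ∀ S : Finset ℂ, Sol P (D i).L A (1 / 2 + δ) B T R S → count P (D i).L A S ≤ ε * Real.log (N i)) ∧
    -- (C) the criterion
    (∀ A : ι → ℂ → ℂ, Targets (P.coeff 0) σ₀ δ₀ N A →
      (LindelofBounded D N ↔ ∀ η H : ℝ, 0 < η → 0 < H → ∃ X : ℝ, ∀ i, X ≤ N i → ∀ T : ℝ, |T| ≤ H →
        ∀ S : Finset ℂ, Sol P (D i).L (A i) (1 / 2 + η) (1 / η) T 1 S →
          count P (D i).L (A i) S ≤ η * Real.log (N i))) ∧
    -- (D) central values
    ((∃ A : ι → ℂ → ℂ, Targets (P.coeff 0) σ₀ δ₀ N A ∧ ∃ h : ℝ, 0 < h ∧ ∀ η : ℝ, 0 < η → ∃ X : ℝ, ∀ i, X ≤ N i →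
        ∀ S : Finset ℂ, Sol P (D i).L (A i) (1 / 2 + η) (1 / η) 0 h S →
          count P (D i).L (A i) S ≤ η * Real.log (N i)) →
      CentralBound D N) := by
  have F := fam_of hθ0 hθ hC hk hD
  refine ⟨?_, ?_, ?_, ?_⟩
  · intro β h H₀ hβ hh hH₀
    obtain ⟨c, X, hc, -, -, H1⟩ := many_law P hP F hn hθ0 hθ σ₀ hβ hh hH₀ hδ₀
    exact ⟨c, X, hc, fun i hi T hT hbig A hA => H1 i hi T hT hbig A hA⟩
  · intro δ ε B R H₀ hδ hε hR hH₀
    obtain ⟨c, H, X, hc, hH, hX, H1⟩ := few_law P F hn hθ0 hθ σ₀ B hδ hε hδ₀ hR hH₀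
    obtain ⟨c', hc'⟩ : ∃ c' : ℝ, c' = min (min c (δ / 2)) (1 / H) := ⟨_, rfl⟩
    have hc'0 : 0 < c' := by rw [hc']; positivity
    have hc'1 : c' ≤ c := by rw [hc']; exact (min_le_left _ _).trans (min_le_left _ _)
    have hc'2 : c' ≤ δ / 2 := by rw [hc']; exact (min_le_left _ _).trans (min_le_right _ _)
    have hc'3 : H ≤ 1 / c' := by
      have h1 : c' ≤ 1 / H := by rw [hc']; exact min_le_right _ _
      rw [le_div_iff₀ hH] at h1
      rw [le_div_iff₀ hc'0]
      linarith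
    refine ⟨c', H, X, hc'0, hH, fun i hi T hT hsmall A hA S hS => ?_⟩
    have hle : N i ^ c' ≤ N i ^ c := Real.rpow_le_rpow_of_exponent_le (hD.one_le i) hc'1
    refine H1 i hi T hT (fun t ht => (hsmall t ht).trans hle) A (fun s h1 h2 h3 => ?_) S hS
    obtain ⟨h4, h5, h6⟩ := hA s (by linarith) (by linarith) h3
    exact ⟨h4, h5.trans hle, h6⟩
  · intro A hA
    exact ⟨fun hL => fewS_of_lin P F hn hθ0 hθ hδ₀ (targ_of hA) hL,
      fun hL => lin_of_fewS P hP F hn hθ0 hθ hδ₀ (targ_of hA) hL⟩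
  · rintro ⟨A, hA, h, hh, hL⟩ β hβ
    obtain ⟨X, HX⟩ := central_val P hP F hn hθ0 hθ hδ₀ hh (targ_of hA) (fun η hη => by
      obtain ⟨X, HX⟩ := hL η hη
      exact ⟨X, fun i hi S hS => HX i hi S (fun s hs => by
        obtain ⟨h1, h2, h3, h4⟩ := hS s hs
        exact ⟨h1, h2, h3, by rwa [sub_zero]⟩)⟩) hβ
    exact ⟨1, X, fun i hi => by rw [one_mul]; exact HX i hi⟩

end Pool.Agent.Results.MP_21d687_nt.DerivativeValuesH88
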