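import Mathlib
import Pool.Agent.V7H89.CH.Loc

/-!
# Central values of families of L-functions and the heat flow near the centre

Let `D i`, `i` in an index set, be L-functions of degree `n` with the analytic properties known for the standard
L-functions of cuspidal representations (`IsStandard θ`, with one `θ < 1/2`), let `N i ≥ 1` be a size, and suppose
that the analytic conductor at the centre is at least `N i / C` and at most `C (N i)^k`.  For Q1: `π` is fixed, `i` runs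
over the square-free `D` of the ring of integers of `F`, `n = 2 [F : ℚ]`, the L-function is
`L(π ⊗ χ_D, s)` regarded as an Euler product over the rational primes, `N = |D|_{S_∞}` and `k = 2`.

Let `e^{t D²} Λ` be the heat flow (the flow of de Bruijn and Newman) of the completed L-function, the average
of `Λ(s + 2 √t v)` with the weight `π^{-1/2} e^{-v²}`, and `Q(T) = Q(1/2 + iT)`.  The zeros near the height `T` have mean
distance `2π / log Q(T)`, and the natural times are `t = x / log Q(T)` with `x` fixed.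

* (A) (persistence of zeros, unconditional) Let `x, κ > 0`.  There are `c, R > 0` such that, if `N i` is large, `|T| ≤ H`,
  `0 ≤ r ≤ 1/2` and `|L_i(1/2 + r + iT)| ≥ Q(T)^{(x - r)_+² / (4x) + κ}`, then the flow at the time `x / log Q(T)` has
  at least `c log Q(T)` zeros with `Re s ≥ 1/2 + c`, `|Im s - T| ≤ R`.  So `|L_i(1/2)| ≥ Q^β` with `β > 0` forces a
  positive proportion of the zeros near the centre to be off the critical line, at a fixed distance, at EVERY time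
  `x / log Q` with `x < 4 β`.
* (B) (local converse) Many zeros off the line at the time `x / log Q(T)` near the height `T` force a value
  `|L_i(1/2 + r + it)| ≥ Q(t)^{(x - r)_+² / (4x) + κ}` with `0 < r ≤ 1/2` and `|t - T| ≤ R'`, where `κ > 0`, `R'` depend only
  on the other parameters.
* (C) (law) For every `x > 0` the following are equivalent: for all `η, ε, R, H > 0` and `N i` large the flow at the
  time `x / log Q(T)`, `|T| ≤ H`, has at most `ε log Q(T)` zeros with `Re s ≥ 1/2 + η`, `|Im s - T| ≤ R`; and: for all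
  `κ, H > 0` and `N i` large, `|L_i(1/2 + r + iT)| ≤ Q(T)^{(x - r)_+² / (4x) + κ}` for `0 ≤ r ≤ 1/2`, `|T| ≤ H`.
* (D) (criteria) The bound of Q1 for the central values holds if for every `x > 0` (for arbitrarily small `x`) the
  flow at the time `x / log Q(0)` has `o(log Q(0))` zeros off the line near the centre.  The Lindelöf bound on all bounded
  ranges of heights is equivalent to this condition at all heights `|T| ≤ H`, for all `H`.
* (E) (zeros on the line) For `x > 1` ALL zeros of the flow with `|Im s - T| ≤ R` are on the critical line, if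
  `N i` is large, `|T| ≤ H`; the same holds for `(2 - 4μ) x > 1` if `|L_i(1/2 + iT)| ≤ Q(T)^{μ + κ}` for `N i` large and
  `|T| ≤ H` (for all `κ, H > 0`), `μ < 1/4`.  For the quadratic twists such a bound is known with some `μ < 1/4` (Michel and
  Venkatesh), so the zeros come to the line before the time `1 / log Q` by a constant factor; under the Lindelöf bound
  the time is `(1/2 + o(1)) / log Q`.
-/

set_option autoImplicit false

open MeasureTheory

namespace Pool.Agent.Results.MP_21d687_nt.HeatFlowCentralH89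

/-- The data of an L-function of degree `n` over the rationals: the arithmetic conductor `q`, the
archimedean parameters `μ j` (the gamma factor is `∏ j, Γ_ℝ(s + μ j)`), the Satake parameters `α p j` at the
primes `p` (some of them zero at ramified primes), the root number `w` and the completed L-function `Λ`. -/
structure StdL (n : ℕ) where
  /-- the arithmetic conductor -/
  q : ℕ
  /-- the archimedean parameters -/
  μ : Fin n → ℂ
  /-- the Satake parameters -/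
  α : ℕ → Fin n → ℂ
  /-- the root number -/
  w : ℂ
  /-- the completed L-function -/
  Λ : ℂ → ℂ

/-- The L-function `L(s) = Λ(s) q^{-s/2} ∏ j, Γ_ℝ(s + μ j)⁻¹`. -/
noncomputable def StdL.L {n : ℕ} (D : StdL n) (s : ℂ) : ℂ :=
  D.Λ s * ((D.q : ℂ) ^ (s / 2) * ∏ j, Complex.Gammaℝ (s + D.μ j))⁻¹

/-- The analytic conductor `Q(1/2 + it) = q ∏ j, (1 + |1/2 + it + μ j|)`. -/
noncomputable def StdL.Q {n : ℕ} (D : StdL n) (t : ℝ) : ℝ :=
  D.q * ∏ j, (1 + ‖1 / 2 + (t : ℂ) * Complex.I + D.μ j‖)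

/-- The analytic properties of the L-functions. -/
structure StdL.IsStandard {n : ℕ} (D : StdL n) (θ : ℝ) : Prop where
  /-- the conductor is positive -/
  q_pos : 0 < D.q
  /-- the root number has absolute value one -/
  w_norm : ‖D.w‖ = 1
  /-- the bound for the Satake parameters -/
  satake : ∀ p : ℕ, p.Prime → ∀ j, ‖D.α p j‖ ≤ (p : ℝ) ^ θ
  /-- the bound for the archimedean parameters -/
  arch : ∀ j, -θ ≤ (D.μ j).re
  /-- the completed L-function is entire -/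
  entire : Differentiable ℂ D.Λ
  /-- it is of finite order in vertical strips -/
  order : ∀ a b : ℝ, ∃ M : ℝ, ∀ s : ℂ, a ≤ s.re → s.re ≤ b → ‖D.Λ s‖ ≤ Real.exp (M * (1 + |s.im|))
  /-- the Euler product in the half plane `Re s > 1` -/
  euler : ∀ s : ℂ, 1 < s.re →
    HasProd (fun p : Nat.Primes => ∏ j, (1 - D.α p j * ((p : ℕ) : ℂ) ^ (-s))⁻¹) (D.L s)
  /-- there are no zeros in this half plane -/
  ne_zero : ∀ s : ℂ, 1 < s.re → D.Λ s ≠ 0
  /-- the functional equation -/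
  functional : ∀ s : ℂ, D.Λ s = D.w * (starRingEnd ℂ) (D.Λ (1 - (starRingEnd ℂ) s))

/-- A family of such L-functions, with a size comparable to the conductor. -/
structure Family {n : ℕ} {ι : Type*} (θ C k : ℝ) (D : ι → StdL n) (N : ι → ℝ) : Prop where
  /-- the analytic properties -/
  standard : ∀ i, (D i).IsStandard θ
  /-- the size -/
  one_le : ∀ i, 1 ≤ N i
  /-- the conductor is not small -/
  lower : ∀ i, N i ≤ C * (D i).Q 0
  /-- the conductor is not large -/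
  upper : ∀ i, (D i).Q 0 ≤ C * N i ^ k

variable {n : ℕ} {ι : Type*}

/-- The heat flow `e^{t D²} F` at the time `t ≥ 0`: the average of `F(s + 2 √t v)` with the weight
`π^{-1/2} e^{-v²}`. -/
noncomputable def heat (t : ℝ) (F : ℂ → ℂ) (s : ℂ) : ℂ :=
  ((1 / Real.sqrt Real.pi : ℝ) : ℂ) *
    ∫ v : ℝ, ((Real.exp (-v ^ 2) : ℝ) : ℂ) * F (s + ((2 * Real.sqrt t * v : ℝ) : ℂ))

/-- The heat flow of the completed L-function at the time `x / log Q(T)`. -/
noncomputable def StdL.flow (D : StdL n) (x T : ℝ) : ℂ → ℂ := heat (x / Real.log (D.Q T)) D.Λ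

/-- The exponent `(x - r)_+² / (4x)`. -/
noncomputable def expo (x r : ℝ) : ℝ := max (x - r) 0 ^ 2 / (4 * x)

/-- `F` has at most `c` zeros with `Re s ≥ 1/2 + η`, `|Im s - T| ≤ R`, counted with multiplicity. -/
def AtMost (F : ℂ → ℂ) (η R T c : ℝ) : Prop :=
  ∀ S : Finset ℂ, (∀ z ∈ S, F z = 0 ∧ 1 / 2 + η ≤ z.re ∧ |z.im - T| ≤ R) →
    ∑ z ∈ S, (analyticOrderNatAt F z : ℝ) ≤ c

/-- `F` has at least `c` zeros with `Re s ≥ 1/2 + η`, `|Im s - T| ≤ R`, counted with multiplicity. -/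
def AtLeast (F : ℂ → ℂ) (η R T c : ℝ) : Prop :=
  ∃ S : Finset ℂ, (∀ z ∈ S, F z = 0 ∧ 1 / 2 + η ≤ z.re ∧ |z.im - T| ≤ R) ∧
    c ≤ ∑ z ∈ S, (analyticOrderNatAt F z : ℝ)

/-- At the time `x / log Q(T)` there are `o(log Q(T))` zeros off the line near the heights `T`, `|T| ≤ H`. -/
def FewOff (D : ι → StdL n) (N : ι → ℝ) (x H : ℝ) : Prop := ∀ η ε R : ℝ, 0 < η → 0 < ε → 0 < R → ∃ X : ℝ,
  ∀ i, X ≤ N i → ∀ T : ℝ, |T| ≤ H → AtMost ((D i).flow x T) η R T (ε * Real.log ((D i).Q T))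

/-- All zeros near the heights `T`, `|T| ≤ H`, are on the line at the time `x / log Q(T)`. -/
def OnLine (D : ι → StdL n) (N : ι → ℝ) (x H : ℝ) : Prop := ∀ R : ℝ, 0 < R → ∃ X : ℝ,
  ∀ i, X ≤ N i → ∀ T : ℝ, |T| ≤ H → ∀ s : ℂ, |s.im - T| ≤ R → (D i).flow x T s = 0 → s.re = 1 / 2

/-- `|L(1/2 + r + iT)| ≤ Q(T)^{(x - r)_+² / (4x) + κ}` for `0 ≤ r ≤ 1/2`, `|T| ≤ H`. -/
def Profile (D : ι → StdL n) (N : ι → ℝ) (x H : ℝ) : Prop := ∀ κ : ℝ, 0 < κ → ∃ X : ℝ,
  ∀ i, X ≤ N i → ∀ T : ℝ, |T| ≤ H → ∀ r : ℝ, 0 ≤ r → r ≤ 1 / 2 →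
    ‖(D i).L (1 / 2 + r + T * Complex.I)‖ ≤ (D i).Q T ^ (expo x r + κ)

/-- `|L(1/2 + iT)| ≤ Q(T)^{μ + κ}` on every bounded range of heights. -/
def LineBound (D : ι → StdL n) (N : ι → ℝ) (μ : ℝ) : Prop := ∀ κ H : ℝ, 0 < κ → 0 < H → ∃ X : ℝ,
  ∀ i, X ≤ N i → ∀ T : ℝ, |T| ≤ H → ‖(D i).L (1 / 2 + T * Complex.I)‖ ≤ (D i).Q T ^ (μ + κ)

/-- The Lindelöf bound for the central values, as in Q1. -/
def CentralBound (D : ι → StdL n) (N : ι → ℝ) : Prop := ∀ β : ℝ, 0 < β → ∃ C X : ℝ, ∀ i, X ≤ N i →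
  ‖(D i).L (1 / 2)‖ ≤ C * N i ^ β

/-- The Lindelöf bound on every bounded range of heights. -/
def LindelofBounded (D : ι → StdL n) (N : ι → ℝ) : Prop := ∀ β H : ℝ, 0 < β → 0 < H → ∃ X : ℝ, ∀ i, X ≤ N i →
  ∀ T : ℝ, |T| ≤ H → ‖(D i).L (1 / 2 + T * Complex.I)‖ ≤ N i ^ β

open Pool.Agent.V7H89.GL Pool.Agent.V7H89.CH Pool.Agent.W169.HF H353.E H353.F

/-- the data in the form of the library -/
lemma dat_of (D : StdL n) {θ : ℝ} (hθ0 : 0 ≤ θ) (hθ : θ < 1 / 2) (H : D.IsStandard θ) :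
    Dat θ (D.q : ℝ) (fun j => -D.μ j) (fun j p => D.α p j) D.w
      (fun s => D.Λ s * ((D.q : ℂ) ^ (s / 2))⁻¹) := by
  have hq : (1 : ℝ) ≤ D.q := by exact_mod_cast H.q_pos
  have hq0 : (D.q : ℂ) ≠ 0 := by
    have := H.q_pos
    exact_mod_cast this.ne'
  have hpow : ∀ s : ℂ, (D.q : ℂ) ^ (s / 2) ≠ 0 := fun s => by
    rw [Ne, Complex.cpow_eq_zero_iff]
    exact fun h => hq0 h.1
  have hXX : ∀ s : ℂ, XX (D.q : ℝ) (fun s => D.Λ s * ((D.q : ℂ) ^ (s / 2))⁻¹) s = D.Λ s := fun s => by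
    unfold XX
    rw [Complex.ofReal_natCast]
    field_simp [hpow s]
  refine ⟨⟨hq, fun j => ?_, fun j p hp => H.satake p hp j, H.w_norm, ?_, fun s hs => ?_, fun s => ?_,
    fun a b => ?_⟩, fun j => ?_, fun s hs => ?_⟩
  · have := H.arch j
    simp only [Complex.neg_re]
    linarith
  · refine H.entire.mul ?_
    have e : (fun s : ℂ => ((D.q : ℂ) ^ (s / 2))⁻¹) = fun s => (D.q : ℂ) ^ (-(s / 2)) := by
      funext s
      rw [Complex.cpow_neg]
    rw [e]
    intro z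
    exact ((((hasDerivAt_id z).div_const 2).neg).const_cpow (c := (D.q : ℂ)) (Or.inl hq0)).differentiableAt
  · have h1 := (H.euler s (by linarith)).tprod_eq
    rw [h1]
    unfold StdL.L
    have hne : ∏ j, Complex.Gammaℝ (s + D.μ j) ≠ 0 := by
      refine Finset.prod_ne_zero_iff.2 fun j _ => Complex.Gammaℝ_ne_zero_of_re_pos ?_
      have := H.arch j
      rw [Complex.add_re]
      linarith
    simp only [sub_neg_eq_add]
    rw [mul_inv]
    field_simp [hpow s]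
  · have h1 := H.functional s
    rw [h1, map_mul, map_inv₀]
    have h2 : (starRingEnd ℂ) ((D.q : ℂ) ^ ((1 - (starRingEnd ℂ) s) / 2)) = (D.q : ℂ) ^ ((1 - s) / 2) := by
      have := conj_cpow_real (N := (D.q : ℝ)) (by linarith) ((1 - (starRingEnd ℂ) s) / 2)
      rw [Complex.ofReal_natCast] at this
      rw [this]
      congr 1
      rw [map_div₀, map_sub, Complex.conj_conj, map_one, map_ofNat]
    rw [h2, Complex.ofReal_natCast]
    have h3 : (D.q : ℂ) ^ (1 / 2 - s) * ((D.q : ℂ) ^ ((1 - s) / 2))⁻¹ = ((D.q : ℂ) ^ (s / 2))⁻¹ := by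
      rw [← Complex.cpow_neg, ← Complex.cpow_neg, ← Complex.cpow_add _ _ hq0]
      congr 1
      ring
    rw [← h3]
    ring
  · obtain ⟨M, hM⟩ := H.order a b
    refine ⟨M + (|a| + |b|) * Real.log D.q, fun s h1 h2 => ?_⟩
    rw [norm_mul, norm_inv, Complex.norm_natCast_cpow_of_pos H.q_pos]
    have h3 := hM s h1 h2
    have hlog := Real.log_nonneg hq
    have hre : (s / 2).re = s.re / 2 := by
      rw [show (2 : ℂ) = ((2 : ℝ) : ℂ) by norm_num, Complex.div_ofReal_re]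
    rw [hre, ← Real.rpow_neg (by linarith), Real.rpow_def_of_pos (by linarith)]
    refine (mul_le_mul_of_nonneg_right h3 (Real.exp_pos _).le).trans ?_
    rw [← Real.exp_add]
    apply Real.exp_le_exp.2
    have h4 : -(s.re / 2) ≤ |a| + |b| := by
      have := neg_abs_le a
      have := abs_nonneg b
      have := abs_nonneg a
      linarith
    have h5 : Real.log D.q * -(s.re / 2) ≤ Real.log D.q * (|a| + |b|) := mul_le_mul_of_nonneg_left h4 hlog
    have h6 : 0 ≤ (|a| + |b|) * Real.log D.q * |s.im| := by positivity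
    nlinarith
  · have := H.arch j
    simp only [Complex.neg_re]
    linarith
  · rw [hXX]
    exact H.ne_zero s hs

lemma XX_eq (D : StdL n) (hq : 0 < D.q) :
    XX (D.q : ℝ) (fun s => D.Λ s * ((D.q : ℂ) ^ (s / 2))⁻¹) = D.Λ := by
  have hq0 : (D.q : ℂ) ≠ 0 := by exact_mod_cast hq.ne'
  funext s
  unfold XX
  have hpow : (D.q : ℂ) ^ (s / 2) ≠ 0 := by
    rw [Ne, Complex.cpow_eq_zero_iff]
    exact fun h => hq0 h.1
  rw [Complex.ofReal_natCast]
  field_simp [hpow]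

lemma LL_eq (D : StdL n) (hq : 0 < D.q) (s : ℂ) :
    LL (D.q : ℝ) (fun j => -D.μ j) (fun s => D.Λ s * ((D.q : ℂ) ^ (s / 2))⁻¹) s = D.L s := by
  unfold LL StdL.L gaf
  rw [XX_eq D hq]
  simp only [sub_neg_eq_add, Complex.ofReal_natCast]

lemma cq_eq (D : StdL n) (t : ℝ) : cq (D.q : ℝ) (fun j => -D.μ j) t = D.Q t := by
  unfold cq StdL.Q
  simp only [sub_neg_eq_add]

lemma Q_one_le (D : StdL n) (hq : 0 < D.q) (T : ℝ) : 1 ≤ D.Q T := by
  have hq1 : (1 : ℝ) ≤ D.q := by exact_mod_cast hq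
  rw [← cq_eq]
  exact hq1.trans (le_cq hq1 _ _)

lemma Q_move (D : StdL n) (hq : 0 < D.q) (T t : ℝ) : Real.log (D.Q t) ≤ Real.log (D.Q T) + n * |t - T| := by
  have hq1 : (1 : ℝ) ≤ D.q := by exact_mod_cast hq
  have h1 := cq_move hq1 (fun j => -D.μ j) T (t - T)
  rw [add_sub_cancel, cq_eq, cq_eq] at h1
  exact h1

lemma expo_eq (x r : ℝ) : phi x r / 2 = expo x r := by
  unfold phi expo
  rw [div_div]
  congr 1
  ring

section fam

variable {θ C k : ℝ} {D : ι → StdL n} {N : ι → ℝ}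

/-- the size at the centre and the conductor at a bounded height -/
lemma size_le (hC : 1 ≤ C) (hD : Family θ C k D N) {H : ℝ} (i : ι) {T : ℝ} (hT : |T| ≤ H) :
    N i ≤ C * Real.exp (n * H) * (D i).Q T := by
  have hq := (hD.standard i).q_pos
  have h0 := Q_one_le (D i) hq 0
  have h1 := Q_one_le (D i) hq T
  have h2 := Q_move (D i) hq T 0
  rw [zero_sub, abs_neg] at h2
  have h3 : (n : ℝ) * |T| ≤ n * H := mul_le_mul_of_nonneg_left hT (Nat.cast_nonneg n)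
  have h4 : (D i).Q 0 ≤ Real.exp (n * H) * (D i).Q T := by
    calc (D i).Q 0 = Real.exp (Real.log ((D i).Q 0)) := (Real.exp_log (by linarith)).symm
      _ ≤ Real.exp (n * H + Real.log ((D i).Q T)) := Real.exp_le_exp.2 (by linarith)
      _ = _ := by rw [Real.exp_add, Real.exp_log (by linarith)]
  calc N i ≤ C * (D i).Q 0 := hD.lower i
    _ ≤ C * (Real.exp (n * H) * (D i).Q T) := mul_le_mul_of_nonneg_left h4 (by linarith)
    _ = _ := by ring

/-- the conductor is large if the size is large -/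
lemma large (hC : 1 ≤ C) (hD : Family θ C k D N) (Q0 H : ℝ) :
    ∃ X : ℝ, 1 ≤ X ∧ ∀ i, X ≤ N i → ∀ T : ℝ, |T| ≤ H → Q0 ≤ (D i).Q T := by
  have hE : 0 < C * Real.exp (n * H) := by positivity
  refine ⟨max 1 (C * Real.exp (n * H) * Q0), le_max_left _ _, fun i hi T hT => ?_⟩
  have h1 := size_le hC hD i hT
  have h2 : C * Real.exp (n * H) * Q0 ≤ C * Real.exp (n * H) * (D i).Q T := (le_max_right _ _).trans (hi.trans h1)
  exact le_of_mul_le_mul_left h2 hE

/-- powers of the size and powers of the conductor -/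
lemma size_pow (hC : 1 ≤ C) (hD : Family θ C k D N) {β H : ℝ} (hβ : 0 ≤ β) :
    ∃ X : ℝ, 1 ≤ X ∧ ∀ i, X ≤ N i → ∀ T : ℝ, |T| ≤ H → N i ^ β ≤ (D i).Q T ^ (2 * β) := by
  obtain ⟨X, hX1, hX⟩ := large hC hD (C * Real.exp (n * H)) H
  refine ⟨X, hX1, fun i hi T hT => ?_⟩
  have h1 := size_le hC hD i hT
  have h2 := hX i hi T hT
  have h3 := Q_one_le (D i) (hD.standard i).q_pos T
  have h4 : N i ≤ (D i).Q T ^ (2 : ℝ) := by
    rw [Real.rpow_two, sq]
    exact h1.trans (mul_le_mul_of_nonneg_right h2 (by linarith))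
  rw [Real.rpow_mul (by linarith)]
  exact Real.rpow_le_rpow (by linarith [hD.one_le i]) h4 hβ

/-- the conductor at a bounded height against a power of the size -/
lemma cond_pow (hk : 0 ≤ k) (hD : Family θ C k D N) {β H : ℝ} (hβ : 0 < β) :
    ∃ e X : ℝ, 0 < e ∧ 1 ≤ X ∧ ∀ i, X ≤ N i → ∀ T : ℝ, |T| ≤ H → (D i).Q T ^ e ≤ N i ^ β := by
  obtain ⟨e, he⟩ : ∃ e : ℝ, e = β / (k + 1) := ⟨_, rfl⟩
  have he0 : 0 < e := by rw [he]; positivity
  refine ⟨e, max 1 (C * Real.exp (n * H)), he0, le_max_left _ _, fun i hi T hT => ?_⟩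
  have hN1 := hD.one_le i
  have hq := (hD.standard i).q_pos
  have h0 := Q_one_le (D i) hq 0
  have h1 := Q_one_le (D i) hq T
  have h2 := Q_move (D i) hq 0 T
  rw [sub_zero] at h2
  have h3 : (n : ℝ) * |T| ≤ n * H := mul_le_mul_of_nonneg_left hT (Nat.cast_nonneg n)
  have h4 : (D i).Q T ≤ Real.exp (n * H) * (D i).Q 0 := by
    calc (D i).Q T = Real.exp (Real.log ((D i).Q T)) := (Real.exp_log (by linarith)).symm
      _ ≤ Real.exp (n * H + Real.log ((D i).Q 0)) := Real.exp_le_exp.2 (by linarith)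
      _ = _ := by rw [Real.exp_add, Real.exp_log (by linarith)]
  have h5 : (D i).Q T ≤ N i ^ (k + 1) := by
    calc (D i).Q T ≤ Real.exp (n * H) * (D i).Q 0 := h4
      _ ≤ Real.exp (n * H) * (C * N i ^ k) := mul_le_mul_of_nonneg_left (hD.upper i) (Real.exp_pos _).le
      _ = (C * Real.exp (n * H)) * N i ^ k := by ring
      _ ≤ N i * N i ^ k := mul_le_mul_of_nonneg_right ((le_max_right _ _).trans hi)
          (Real.rpow_nonneg (by linarith) _)
      _ = N i ^ (k + 1) := by rw [Real.rpow_add (by linarith), Real.rpow_one, mul_comm]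
  calc (D i).Q T ^ e ≤ (N i ^ (k + 1)) ^ e := Real.rpow_le_rpow (by linarith) h5 he0.le
    _ = N i ^ β := by
        rw [← Real.rpow_mul (by linarith), he]
        congr 1
        field_simp

/-- (A) in the form: few zeros imply the bound -/
lemma few_bound (hn : 1 ≤ n) (hθ0 : 0 ≤ θ) (hθ : θ < 1 / 2) (hC : 1 ≤ C) (hD : Family θ C k D N)
    {x κ : ℝ} (hx : 0 < x) (hκ : 0 < κ) (H : ℝ) : ∃ c R X : ℝ, 0 < c ∧ 0 < R ∧ 1 ≤ X ∧
      ∀ i, X ≤ N i → ∀ T : ℝ, |T| ≤ H → 1 < (D i).Q T ∧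
        (AtMost ((D i).flow x T) c R T (c * Real.log ((D i).Q T)) →
          ∀ r : ℝ, 0 ≤ r → r ≤ 1 / 2 → ‖(D i).L (1 / 2 + r + T * Complex.I)‖ ≤ (D i).Q T ^ (expo x r + κ)) := by
  obtain ⟨c, R, Q0, hc, hR, hQ0, HS⟩ := loc_size hn hθ0 hθ hx hκ
  obtain ⟨X, hX1, hX⟩ := large hC hD Q0 H
  refine ⟨c, R, X, hc, hR, hX1, fun i hi T hT => ⟨by linarith [hX i hi T hT], fun hfew r hr0 hr1 => ?_⟩⟩
  have hS := hD.standard i
  have h1 := HS _ _ _ _ _ (dat_of (D i) hθ0 hθ hS) T (by rw [cq_eq]; exact hX i hi T hT)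
    (by
      rw [cq_eq, XX_eq (D i) hS.q_pos]
      exact fun S hS' => hfew S hS') r hr0 (by linarith)
  rw [LL_eq (D i) hS.q_pos, cq_eq, expo_eq] at h1
  have e1 : (1 / 2 + (T : ℂ) * Complex.I + r : ℂ) = 1 / 2 + r + T * Complex.I := by ring
  rwa [e1] at h1

/-- (B) in the form: the bound near a height implies few zeros -/
lemma bound_few (hn : 1 ≤ n) (hθ0 : 0 ≤ θ) (hθ : θ < 1 / 2) (hC : 1 ≤ C) (hD : Family θ C k D N)
    {x η ε R : ℝ} (hx : 0 < x) (hη : 0 < η) (hε : 0 < ε) (hR : 0 < R) (H : ℝ) :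
    ∃ κ R' X : ℝ, 0 < κ ∧ 0 < R' ∧ 1 ≤ X ∧ ∀ i, X ≤ N i → ∀ T : ℝ, |T| ≤ H → 1 < (D i).Q T ∧
      ((∀ r : ℝ, 0 < r → r ≤ 1 / 2 → ∀ t : ℝ, |t - T| ≤ R' →
        ‖(D i).L (1 / 2 + r + t * Complex.I)‖ ≤ (D i).Q t ^ (expo x r + κ)) →
      AtMost ((D i).flow x T) η R T (ε * Real.log ((D i).Q T))) := by
  obtain ⟨κ, R', Q0, hκ, hR', hQ0, HS⟩ := loc_few hn hθ0 hθ hx hη hε hR
  obtain ⟨X, hX1, hX⟩ := large hC hD Q0 H
  refine ⟨κ, R', X, hκ, hR', hX1, fun i hi T hT => ⟨by linarith [hX i hi T hT], fun hbd => ?_⟩⟩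
  have hS := hD.standard i
  have h1 := HS _ _ _ _ _ (dat_of (D i) hθ0 hθ hS) T (by rw [cq_eq]; exact hX i hi T hT)
    (fun r hr0 hr1 y hy => by
      rw [LL_eq (D i) hS.q_pos, cq_eq, expo_eq]
      have e1 : (1 / 2 + (y : ℂ) * Complex.I + r : ℂ) = 1 / 2 + r + y * Complex.I := by ring
      rw [e1]
      exact hbd r hr0 hr1 y hy)
  rw [cq_eq, XX_eq (D i) hS.q_pos] at h1
  exact fun S hS' => h1 S hS'

lemma profile_of_few (hn : 1 ≤ n) (hθ0 : 0 ≤ θ) (hθ : θ < 1 / 2) (hC : 1 ≤ C) (hD : Family θ C k D N)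
    {x H : ℝ} (hx : 0 < x) (h : FewOff D N x H) : Profile D N x H := by
  intro κ hκ
  obtain ⟨c, R, X, hc, hR, -, HA⟩ := few_bound hn hθ0 hθ hC hD hx hκ H
  obtain ⟨X', hX'⟩ := h c c R hc hc hR
  exact ⟨max X X', fun i hi T hT => (HA i ((le_max_left _ _).trans hi) T hT).2
    (hX' i ((le_max_right _ _).trans hi) T hT)⟩

lemma few_of_profile (hn : 1 ≤ n) (hθ0 : 0 ≤ θ) (hθ : θ < 1 / 2) (hC : 1 ≤ C) (hD : Family θ C k D N)
    {x : ℝ} (hx : 0 < x) (h : ∀ H : ℝ, 0 < H → Profile D N x H) (H : ℝ) : FewOff D N x H := by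
  intro η ε R hη hε hR
  obtain ⟨κ, R', X, hκ, hR', -, HB⟩ := bound_few hn hθ0 hθ hC hD hx hη hε hR H
  obtain ⟨X', hX'⟩ := h (|H| + R') (by positivity) κ hκ
  refine ⟨max X X', fun i hi T hT => (HB i ((le_max_left _ _).trans hi) T hT).2 fun r hr0 hr1 t ht => ?_⟩
  refine hX' i ((le_max_right _ _).trans hi) t ?_ r hr0.le hr1
  have e : t = (t - T) + T := by ring
  rw [e]
  refine (abs_add_le _ _).trans ?_
  linarith [le_abs_self H]

lemma lindelof_of_few (hn : 1 ≤ n) (hθ0 : 0 ≤ θ) (hθ : θ < 1 / 2) (hC : 1 ≤ C) (hk : 0 ≤ k)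
    (hD : Family θ C k D N) {H : ℝ} (h : ∀ x : ℝ, 0 < x → FewOff D N x H) {β : ℝ} (hβ : 0 < β) :
    ∃ X : ℝ, ∀ i, X ≤ N i → ∀ T : ℝ, |T| ≤ H → ‖(D i).L (1 / 2 + T * Complex.I)‖ ≤ N i ^ β := by
  obtain ⟨e, X, he, -, HX⟩ := cond_pow hk hD (H := H) hβ
  obtain ⟨X', HX'⟩ := profile_of_few hn hθ0 hθ hC hD he (h e he) (e / 2) (by positivity)
  refine ⟨max X X', fun i hi T hT => ?_⟩
  have h1 := HX' i ((le_max_right _ _).trans hi) T hT 0 le_rfl (by norm_num)
  have h2 := HX i ((le_max_left _ _).trans hi) T hT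
  have h3 := Q_one_le (D i) (hD.standard i).q_pos T
  have e1 : (1 / 2 + ((0 : ℝ) : ℂ) + (T : ℂ) * Complex.I) = 1 / 2 + T * Complex.I := by push_cast; ring
  rw [e1] at h1
  refine h1.trans (le_trans (Real.rpow_le_rpow_of_exponent_le h3 ?_) h2)
  unfold expo
  rw [sub_zero, max_eq_left he.le]
  have : e ^ 2 / (4 * e) = e / 4 := by field_simp
  rw [this]
  linarith

lemma few_of_lindelof (hn : 1 ≤ n) (hθ0 : 0 ≤ θ) (hθ : θ < 1 / 2) (hC : 1 ≤ C)
    (hD : Family θ C k D N) (h : LindelofBounded D N) {x : ℝ} (hx : 0 < x) (H : ℝ) : FewOff D N x H := by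
  refine few_of_profile hn hθ0 hθ hC hD hx (fun H' hH' κ hκ => ?_) H
  obtain ⟨κ2, R5, Q0, hκ2, hR5, -, HM⟩ := loc_mid hn hθ0 hθ hκ
  obtain ⟨X1, -, HX1⟩ := large hC hD Q0 H'
  obtain ⟨X2, HX2⟩ := h (κ2 / 2) (H' + R5) (by positivity) (by positivity)
  obtain ⟨X3, -, HX3⟩ := size_pow hC hD (β := κ2 / 2) (H := H' + R5) (by positivity)
  refine ⟨max X1 (max X2 X3), fun i hi T hT r hr0 hr1 => ?_⟩
  have hi1 := (le_max_left _ _).trans hi
  have hi2 := ((le_max_left _ _).trans (le_max_right _ _)).trans hi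
  have hi3 := ((le_max_right _ _).trans (le_max_right _ _)).trans hi
  have hS := hD.standard i
  have h1 := HM _ _ _ _ _ (dat_of (D i) hθ0 hθ hS) T (by rw [cq_eq]; exact HX1 i hi1 T hT)
    (fun t ht => by
      have ht' : |t| ≤ H' + R5 := by
        have e : t = (t - T) + T := by ring
        rw [e]
        refine (abs_add_le _ _).trans ?_
        linarith
      rw [LL_eq (D i) hS.q_pos, cq_eq]
      refine (HX2 i hi2 t ht').trans ((HX3 i hi3 t ht').trans (le_of_eq ?_))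
      congr 1
      ring) r hr0 hr1
  rw [LL_eq (D i) hS.q_pos, cq_eq] at h1
  have e1 : (1 / 2 + (T : ℂ) * Complex.I + r : ℂ) = 1 / 2 + r + T * Complex.I := by ring
  rw [e1] at h1
  refine h1.trans (Real.rpow_le_rpow_of_exponent_le (Q_one_le (D i) hS.q_pos T) ?_)
  have : 0 ≤ expo x r := by unfold expo; positivity
  linarith

lemma online_uncond (hn : 1 ≤ n) (hθ0 : 0 ≤ θ) (hθ : θ < 1 / 2) (hC : 1 ≤ C)
    (hD : Family θ C k D N) {x : ℝ} (hx : 1 < x) (H : ℝ) : OnLine D N x H := by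
  intro R hR
  obtain ⟨Q0, -, HQ⟩ := line_uncond hn hθ0 hθ hx hR.le
  obtain ⟨X, -, hX⟩ := large hC hD Q0 H
  refine ⟨X, fun i hi T hT s hs hz => ?_⟩
  have hS := hD.standard i
  refine HQ _ _ _ _ _ (dat_of (D i) hθ0 hθ hS) T (by rw [cq_eq]; exact hX i hi T hT) s hs ?_
  rw [cq_eq, XX_eq (D i) hS.q_pos]
  exact hz

lemma online_of_bound (hn : 1 ≤ n) (hθ0 : 0 ≤ θ) (hθ : θ < 1 / 2) (hC : 1 ≤ C)
    (hD : Family θ C k D N) {μ x : ℝ} (hμ0 : 0 ≤ μ) (hμ1 : μ < 1 / 4) (hx0 : 0 < x) (hx : 1 < (2 - 4 * μ) * x)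
    (h : LineBound D N μ) (H : ℝ) : OnLine D N x H := by
  intro R hR
  obtain ⟨κ2, R5, Q0, hκ2, hR5, -, HQ⟩ := loc_line hn hθ0 hθ hμ0 hμ1 hx0 hx hR.le
  obtain ⟨X, -, hX⟩ := large hC hD Q0 H
  obtain ⟨X', hX'⟩ := h κ2 (|H| + R5) hκ2 (by positivity)
  refine ⟨max X X', fun i hi T hT s hs hz => ?_⟩
  have hS := hD.standard i
  refine HQ _ _ _ _ _ (dat_of (D i) hθ0 hθ hS) T (by rw [cq_eq]; exact hX i ((le_max_left _ _).trans hi) T hT)
    (fun t ht => ?_) s hs ?_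
  · rw [LL_eq (D i) hS.q_pos, cq_eq]
    refine hX' i ((le_max_right _ _).trans hi) t ?_
    have e : t = (t - T) + T := by ring
    rw [e]
    refine (abs_add_le _ _).trans ?_
    linarith [le_abs_self H]
  · rw [cq_eq, XX_eq (D i) hS.q_pos]
    exact hz

lemma not_atMost {F : ℂ → ℂ} {η R T c : ℝ} (h : ¬ AtMost F η R T c) : AtLeast F η R T c := by
  unfold AtMost at h
  push Not at h
  obtain ⟨S, h1, h2⟩ := h
  exact ⟨S, h1, h2.le⟩

end fam

/-- **Central values, bounded heights and the zeros of the heat flow.** -/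
theorem result (hn : 1 ≤ n) {θ C k : ℝ} (hθ0 : 0 ≤ θ) (hθ : θ < 1 / 2) (hC : 1 ≤ C) (hk : 0 ≤ k)
    (D : ι → StdL n) (N : ι → ℝ) (hD : Family θ C k D N) :
    -- (A) a large value keeps zeros off the line
    (∀ x κ H : ℝ, 0 < x → 0 < κ → 0 ≤ H → ∃ c R X : ℝ, 0 < c ∧ 0 < R ∧ ∀ i, X ≤ N i → ∀ T : ℝ, |T| ≤ H →
      ∀ r : ℝ, 0 ≤ r → r ≤ 1 / 2 → (D i).Q T ^ (expo x r + κ) ≤ ‖(D i).L (1 / 2 + r + T * Complex.I)‖ →
        AtLeast ((D i).flow x T) c R T (c * Real.log ((D i).Q T))) ∧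
    -- the special case of the centre
    (∀ β x : ℝ, 0 < x → x < 4 * β → ∃ c R X : ℝ, 0 < c ∧ 0 < R ∧ ∀ i, X ≤ N i →
      (D i).Q 0 ^ β ≤ ‖(D i).L (1 / 2)‖ → AtLeast ((D i).flow x 0) c R 0 (c * Real.log ((D i).Q 0))) ∧
    -- (B) zeros off the line come from large values
    (∀ x η ε R H : ℝ, 0 < x → 0 < η → 0 < ε → 0 < R → 0 ≤ H → ∃ κ R' X : ℝ, 0 < κ ∧ 0 < R' ∧ ∀ i, X ≤ N i →
      ∀ T : ℝ, |T| ≤ H → AtLeast ((D i).flow x T) η R T (ε * Real.log ((D i).Q T)) →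
        ∃ r t : ℝ, 0 < r ∧ r ≤ 1 / 2 ∧ |t - T| ≤ R' ∧
          (D i).Q t ^ (expo x r + κ) < ‖(D i).L (1 / 2 + r + t * Complex.I)‖) ∧
    -- (C) the law
    (∀ x H : ℝ, 0 < x → 0 ≤ H → FewOff D N x H → Profile D N x H) ∧
    (∀ x : ℝ, 0 < x → ((∀ H : ℝ, 0 < H → FewOff D N x H) ↔ ∀ H : ℝ, 0 < H → Profile D N x H)) ∧
    -- (D) criteria for Q1
    ((∀ x : ℝ, 0 < x → FewOff D N x 0) → CentralBound D N) ∧
    (LindelofBounded D N ↔ ∀ x H : ℝ, 0 < x → 0 < H → FewOff D N x H) ∧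
    -- (E) all zeros on the line
    (∀ x H : ℝ, 1 < x → 0 ≤ H → OnLine D N x H) ∧
    (∀ μ : ℝ, 0 ≤ μ → μ < 1 / 4 → LineBound D N μ → ∀ x H : ℝ, 0 < x → 1 < (2 - 4 * μ) * x → 0 ≤ H →
      OnLine D N x H) := by
  have hA : ∀ x κ H : ℝ, 0 < x → 0 < κ → 0 ≤ H → ∃ c R X : ℝ, 0 < c ∧ 0 < R ∧ ∀ i, X ≤ N i → ∀ T : ℝ, |T| ≤ H →
      ∀ r : ℝ, 0 ≤ r → r ≤ 1 / 2 → (D i).Q T ^ (expo x r + κ) ≤ ‖(D i).L (1 / 2 + r + T * Complex.I)‖ →
        AtLeast ((D i).flow x T) c R T (c * Real.log ((D i).Q T)) := by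
    intro x κ H hx hκ hH
    obtain ⟨c, R, X, hc, hR, -, HA⟩ := few_bound hn hθ0 hθ hC hD hx (show 0 < κ / 2 by positivity) H
    refine ⟨c, R, X, hc, hR, fun i hi T hT r hr0 hr1 hbig => not_atMost fun hfew => ?_⟩
    obtain ⟨hQ, h1⟩ := HA i hi T hT
    have h2 := hbig.trans (h1 hfew r hr0 hr1)
    have h3 : (D i).Q T ^ (expo x r + κ / 2) < (D i).Q T ^ (expo x r + κ) :=
      Real.rpow_lt_rpow_of_exponent_lt hQ (by linarith)
    linarith
  refine ⟨hA, ?_, ?_, ?_, ?_, ?_, ?_, ?_, ?_⟩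
  · intro β x hx hβ
    obtain ⟨c, R, X, hc, hR, H1⟩ := hA x (β - x / 4) 0 hx (by linarith) le_rfl
    refine ⟨c, R, X, hc, hR, fun i hi hbig => H1 i hi 0 (by simp) 0 le_rfl (by norm_num) ?_⟩
    have e1 : (1 / 2 + ((0 : ℝ) : ℂ) + ((0 : ℝ) : ℂ) * Complex.I) = 1 / 2 := by push_cast; ring
    have e2 : expo x 0 + (β - x / 4) = β := by
      unfold expo
      rw [sub_zero, max_eq_left hx.le]
      field_simp
      ring
    rw [e1, e2]
    exact hbig
  · intro x η ε R H hx hη hε hR hH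
    obtain ⟨κ, R', X, hκ, hR', -, HB⟩ := bound_few hn hθ0 hθ hC hD hx hη (show 0 < ε / 2 by positivity) hR H
    refine ⟨κ, R', X, hκ, hR', fun i hi T hT ⟨S, hS, hSN⟩ => ?_⟩
    obtain ⟨hQ, h1⟩ := HB i hi T hT
    by_contra hcon
    push Not at hcon
    have h2 := h1 (fun r hr0 hr1 t ht => hcon r t hr0 hr1 ht) S hS
    have h3 : 0 < Real.log ((D i).Q T) := Real.log_pos hQ
    nlinarith
  · exact fun x H hx _ h => profile_of_few hn hθ0 hθ hC hD hx h
  · exact fun x hx => ⟨fun h H hH => profile_of_few hn hθ0 hθ hC hD hx (h H hH),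
      fun h H _ => few_of_profile hn hθ0 hθ hC hD hx h H⟩
  · intro h β hβ
    obtain ⟨X, hX⟩ := lindelof_of_few hn hθ0 hθ hC hk hD h hβ
    refine ⟨1, X, fun i hi => ?_⟩
    have := hX i hi 0 (by simp)
    simpa using this
  · exact ⟨fun h x H hx _ => few_of_lindelof hn hθ0 hθ hC hD h hx H,
      fun h β H hβ hH => lindelof_of_few hn hθ0 hθ hC hk hD (fun x hx => h x H hx hH) hβ⟩
  · exact fun x H hx _ => online_uncond hn hθ0 hθ hC hD hx H
  · exact fun μ hμ0 hμ1 hb x H hx0 hx _ => online_of_bound hn hθ0 hθ hC hD hμ0 hμ1 hx0 hx hb H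

end Pool.Agent.Results.MP_21d687_nt.HeatFlowCentralH89
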