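import Pool.Agent.V7H35.TwistCount
import Pool.Agent.R482.ST.Star
import Pool.Agent.N671.DA.Win
import Pool.Agent.N375.AV.D
import Pool.Agent.N375.AV.Ex
import Pool.Agent.N760.IT.D

/-!
# The Lindelöf bound for quadratic twists at all square-free discriminants near sparse sequences

Let `F = ℚ`, let `π_1, π_2, …` be the cuspidal representations of `PGL_2` over the adeles of `ℚ` (there are countably many
up to isomorphism), and `ℓ_i(D) = L(π_i ⊗ χ_D, 1/2)` for the square-free integers `D`, positive or negative. The second moment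
`∑_{|D| ≤ X} |ℓ_i(D)|² ≪ X^{1 + ε}` is known: it follows from the approximate functional equation and the large sieve of
Heath-Brown for quadratic characters. `SecondMoment` is this bound, and it is the only property of the central values that is
used below. Q1 asks for `|ℓ_i(D)| ≪ |D|^β` for all `β > 0` and all square-free `D`.

* Let `f_k` be positive functions on `(a, ∞)`, `a ≥ 0`, with `f_k(t) / t` nondecreasing, such that the sequence `f_k(t)` has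
  exponent of convergence at most `τ` for each `t > a`, `θ < 1` and `0 < β ≤ 1/2`. For all `α > a` outside a set of Hausdorff
  dimension at most `(1 - 2 β + τ) / (1 - θ)`, for all but finitely many `k`, `|ℓ_i(D)| ≤ |D|^β` for EVERY square-free `D` with
  `||D| - f_k(α)| ≤ b f_k(α) ^ θ`. If `τ = 0` (powers `α ^ k`, orbits of maps), then for almost every `α > a` this holds for
  ALL `i`, all `β > 0` and all `θ < min(2 β, 1)`.
* The same for all square-free `D` near functions of the denominators of simultaneous approximations, for all `α` in `ℝ^m`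
  outside a set of Hausdorff dimension at most `(m + d (1 - 2 β) + κ) / (1 + τ)`.
* The same for all square-free `D` near `G (f m)` for all `m ≤ X` but `X / (log X)^U`, `f` multiplicative of the type of
  Euler's function or the sum of the divisors; near `G (f (φ_k(m)))` for almost all `m` and all `k ≤ K(m)`, `K(m) → ∞`, with
  the iterates `φ_k` of Euler's function; and near `G (h m)` for all `m ≤ X` but `K X exp (- b (log X)^(1 / (k + 1)))`, `h` a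
  composition of `k` functions dominated by the largest prime factor (sum of the prime factors, the largest prime factor,
  Kempner's function). These values have in general very large multiplicities, and so this does not follow from the
  second moment alone.
-/

set_option autoImplicit false

namespace Pool.Agent.Results.MP_21d687_nt.SparseDiscriminantsH35

open MeasureTheory Filter Topology
open Pool.Agent.N733.TG (LM Expanding lm_totient lm_sigma keep_good expanding_pow)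
open Pool.Agent.N760.IT (orb lm_id orbit_good)
open Pool.Agent.N826.IT.Orb (AlmostAll)
open Pool.Agent.N375.AV (PD comp good pd_additive pd_largest pd_kempner)
open Pool.Agent.N671.DA (Solves approx_good)

/-- the second moment over the square-free `D` with `|D| ≤ X` is at most `X^{1 + o(1)}` -/
def SecondMoment (ℓ : ℤ → ℂ) : Prop := ∀ ε : ℝ, 0 < ε → ∃ C : ℝ, ∀ X : ℕ, 1 ≤ X →
  ∑ n ∈ (Finset.Icc 1 X).filter Squarefree, (‖ℓ (n : ℤ)‖ ^ 2 + ‖ℓ (-(n : ℤ))‖ ^ 2) ≤ C * (X : ℝ) ^ (1 + ε)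

/-- the functions `f n` are positive on `(a, ∞)`, `a ≥ 0`, and `f n x / x` is nondecreasing there -/
def Starshaped (a : ℝ) (f : ℕ → ℝ → ℝ) : Prop :=
  0 ≤ a ∧ ∀ n : ℕ, ∀ x y : ℝ, a < x → x ≤ y → 0 < f n x ∧ f n x / x ≤ f n y / y

/-- for each `x > a` the exponent of convergence of the sequence `f n x` is at most `τ` -/
def ExpLe (a : ℝ) (f : ℕ → ℝ → ℝ) (τ : ℝ) : Prop :=
  ∀ x : ℝ, a < x → ∀ t : ℝ, τ < t → Summable (fun n : ℕ => (f n x) ^ (-t))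

/-- `|ℓ(D)| ≤ |D|^β` for every square-free `D` with `||D| - y| ≤ r` -/
def BoundNear (ℓ : ℤ → ℂ) (β y r : ℝ) : Prop :=
  ∀ D : ℤ, Squarefree D → |(D.natAbs : ℝ) - y| ≤ r → ‖ℓ D‖ ≤ (D.natAbs : ℝ) ^ β

open Classical in
/-- the larger of the two values -/
noncomputable def big (ℓ : ℤ → ℂ) (n : ℕ) : ℝ := if Squarefree n then max ‖ℓ (n : ℤ)‖ ‖ℓ (-(n : ℤ))‖ else 0

lemma big_nonneg (ℓ : ℤ → ℂ) (n : ℕ) : 0 ≤ big ℓ n := by
  unfold big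
  split_ifs
  · exact (norm_nonneg _).trans (le_max_left _ _)
  · exact le_rfl

lemma le_big (ℓ : ℤ → ℂ) (D : ℤ) (hD : Squarefree D) : ‖ℓ D‖ ≤ big ℓ D.natAbs := by
  unfold big
  rw [if_pos (Int.squarefree_natAbs.2 hD)]
  rcases Int.natAbs_eq D with h | h
  · conv_lhs => rw [h]
    exact le_max_left _ _
  · conv_lhs => rw [h]
    exact le_max_right _ _

lemma big_sq {ℓ : ℤ → ℂ} (h : SecondMoment ℓ) : ∀ ε : ℝ, 0 < ε → ∃ C : ℝ, ∀ X : ℕ, 1 ≤ X →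
    ∑ n ∈ Finset.Icc 1 X, big ℓ n ^ 2 ≤ C * (X : ℝ) ^ (1 + ε) := by
  classical
  intro ε hε
  obtain ⟨C, hC⟩ := h ε hε
  refine ⟨C, fun X hX => le_trans ?_ (hC X hX)⟩
  rw [Finset.sum_filter]
  refine Finset.sum_le_sum fun n _ => ?_
  unfold big
  split_ifs with h1
  · rcases max_cases ‖ℓ (n : ℤ)‖ ‖ℓ (-(n : ℤ))‖ with ⟨h2, _⟩ | ⟨h2, _⟩
    · rw [h2]
      linarith [sq_nonneg ‖ℓ (-(n : ℤ))‖]
    · rw [h2]
      linarith [sq_nonneg ‖ℓ (n : ℤ)‖]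
  · simp

lemma near_of {ℓ : ℤ → ℂ} {β y r : ℝ}
    (h : ∀ n : ℕ, 1 ≤ n → |(n : ℝ) - y| ≤ r → big ℓ n ≤ (n : ℝ) ^ β) : BoundNear ℓ β y r := by
  intro D hD h1
  have hD1 : 1 ≤ D.natAbs := Int.natAbs_pos.2 hD.ne_zero
  exact (le_big ℓ D hD).trans (h _ hD1 h1)

lemma card_mono {P Q : ℕ → Prop} {X : ℕ} (h : ∀ m, P m → Q m) :
    ({m : ℕ | 1 ≤ m ∧ m ≤ X ∧ ¬ Q m}.ncard : ℝ) ≤ ({m : ℕ | 1 ≤ m ∧ m ≤ X ∧ ¬ P m}.ncard : ℝ) := by
  have hfin : {m : ℕ | 1 ≤ m ∧ m ≤ X ∧ ¬ P m}.Finite := (Set.finite_Iic X).subset fun m hm => hm.2.1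
  have hsub : {m : ℕ | 1 ≤ m ∧ m ≤ X ∧ ¬ Q m} ⊆ {m : ℕ | 1 ≤ m ∧ m ≤ X ∧ ¬ P m} := fun m hm =>
    ⟨hm.1, hm.2.1, fun hP => hm.2.2 (h m hP)⟩
  exact_mod_cast Set.ncard_le_ncard hsub hfin

lemma star {ℓ : ℤ → ℂ} (hℓ : SecondMoment ℓ) {a : ℝ} {f : ℕ → ℝ → ℝ} {τ θ : ℝ} (hf : Starshaped a f) (hτ : 0 ≤ τ)
    (hE : ExpLe a f τ) (hθ1 : θ < 1) {β : ℝ} (hβ : 0 < β) (hβ1 : β ≤ 1 / 2) :
    ∃ E : Set ℝ, dimH E ≤ ENNReal.ofReal ((1 - 2 * β + τ) / (1 - θ)) ∧ ∀ α : ℝ, a < α → α ∉ E → ∀ b : ℝ,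
      ∃ k₀ : ℕ, ∀ k : ℕ, k₀ ≤ k → ∀ n : ℕ, 1 ≤ n → |(n : ℝ) - f k α| ≤ b * (f k α) ^ θ →
        big ℓ n ≤ (n : ℝ) ^ β := by
  obtain ⟨E, h1, h2⟩ := Pool.Agent.R482.ST.windows {n : ℕ | 1 ≤ n ∧ ¬ big ℓ n ≤ (n : ℝ) ^ β} (fun n : ℕ => (n : ℝ))
    hf hτ hE (s := 1 - 2 * β) (by linarith) hθ1 (Pool.Agent.V7H35.TwistCount.count (big ℓ) (big_nonneg ℓ) (big_sq hℓ) hβ hβ1)
  refine ⟨E, h1, fun α hα hαE b => ?_⟩
  obtain ⟨k₀, hk⟩ := h2 α hα hαE b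
  refine ⟨k₀, fun k hk1 n hn h3 => ?_⟩
  by_contra hcon
  exact absurd h3 (not_le.2 (hk k hk1 n ⟨hn, hcon⟩))

lemma null_of_dimH {E : Set ℝ} {r : ℝ} (h : dimH E ≤ ENNReal.ofReal r) (hr : r < 1) : volume E = 0 := by
  have h1 : dimH E < ((1 : NNReal) : ENNReal) := by
    rw [ENNReal.coe_one]
    exact lt_of_le_of_lt h (ENNReal.ofReal_lt_one.2 hr)
  refine measure_zero_of_dimH_lt (μ := volume) (d := 1) ?_ h1
  rw [NNReal.coe_one, hausdorffMeasure_real]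

lemma tends {a : ℝ} {f : ℕ → ℝ → ℝ} (hf : Starshaped a f) (hE : ExpLe a f 0) {α : ℝ} (hα : a < α) :
    Tendsto (fun k => f k α) atTop atTop := by
  have h1 := (hE α hα 1 one_pos).tendsto_atTop_zero
  have hpos : ∀ k, 0 < f k α := fun k => (hf.2 k α α hα le_rfl).1
  rw [tendsto_atTop]
  intro T
  have h2 : ∀ᶠ k in atTop, (f k α) ^ (-1 : ℝ) < 1 / (|T| + 1) :=
    h1.eventually (gt_mem_nhds (by positivity))
  filter_upwards [h2] with k hk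
  rw [Real.rpow_neg_one, inv_eq_one_div, one_div_lt_one_div (hpos k) (by positivity)] at hk
  linarith [le_abs_self T]

lemma star_ae (ℓ : ℕ → ℤ → ℂ) (hℓ : ∀ i, SecondMoment (ℓ i)) (a : ℝ) (f : ℕ → ℝ → ℝ) (hf : Starshaped a f)
    (hE : ExpLe a f 0) : ∀ᵐ α : ℝ, a < α → ∀ (i : ℕ) (β θ b : ℝ), 0 < β → θ < 2 * β → θ < 1 →
      ∃ k₀ : ℕ, ∀ k : ℕ, k₀ ≤ k → BoundNear (ℓ i) β (f k α) (b * (f k α) ^ θ) := by
  have hex : ∀ p : ℕ × ℚ × ℚ, ∃ E : Set ℝ, volume E = 0 ∧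
      (0 < (p.2.1 : ℝ) → (p.2.1 : ℝ) ≤ 1 / 2 → (p.2.2 : ℝ) < 2 * p.2.1 → ∀ α : ℝ, a < α → α ∉ E → ∀ b : ℝ,
        ∃ k₀ : ℕ, ∀ k : ℕ, k₀ ≤ k → ∀ n : ℕ, 1 ≤ n → |(n : ℝ) - f k α| ≤ b * (f k α) ^ (p.2.2 : ℝ) →
          big (ℓ p.1) n ≤ (n : ℝ) ^ (p.2.1 : ℝ)) := by
    rintro ⟨i, e, t⟩
    by_cases hc : 0 < (e : ℝ) ∧ (e : ℝ) ≤ 1 / 2 ∧ (t : ℝ) < 2 * e
    · obtain ⟨h1, h2, h3⟩ := hc
      have ht1 : (t : ℝ) < 1 := by linarith
      obtain ⟨E, hE1, hE2⟩ := star (hℓ i) hf le_rfl hE ht1 h1 h2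
      refine ⟨E, null_of_dimH hE1 ?_, fun _ _ _ => hE2⟩
      rw [div_lt_one (by linarith)]
      linarith
    · exact ⟨∅, measure_empty, fun h1 h2 h3 => absurd ⟨h1, h2, h3⟩ hc⟩
  choose E hE0 hE1 using hex
  have hnull : volume (⋃ p, E p) = 0 := measure_iUnion_null hE0
  filter_upwards [measure_eq_zero_iff_ae_notMem.1 hnull] with α hα haα i β θ b hβ hθ hθ1
  have hα' : ∀ p, α ∉ E p := fun p hp => hα (Set.mem_iUnion.2 ⟨p, hp⟩)
  obtain ⟨e, he1, he2⟩ := exists_rat_btwn (show max (θ / 2) 0 < min β (1 / 2) by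
    rw [max_lt_iff, lt_min_iff, lt_min_iff]
    exact ⟨⟨by linarith, by linarith⟩, hβ, by norm_num⟩)
  rw [max_lt_iff] at he1
  rw [lt_min_iff] at he2
  obtain ⟨t, ht1, ht2⟩ := exists_rat_btwn (show θ < 2 * (e : ℝ) by linarith [he1.1])
  obtain ⟨k₀, hk₀⟩ := hE1 (i, e, t) he1.2 he2.2.le ht2 α haα (hα' _) |b|
  obtain ⟨K, hK⟩ := eventually_atTop.1 ((tends hf hE haα).eventually (eventually_ge_atTop (1 : ℝ)))
  refine ⟨max K k₀, fun k hk => near_of fun n hn hnk => ?_⟩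
  have d1 := hK k ((le_max_left _ _).trans hk)
  have hfpos : 0 < f k α := by linarith
  have g1 : (f k α) ^ θ ≤ (f k α) ^ (t : ℝ) := Real.rpow_le_rpow_of_exponent_le d1 ht1.le
  have g2 : |(n : ℝ) - f k α| ≤ |b| * (f k α) ^ (t : ℝ) := hnk.trans
    ((mul_le_mul_of_nonneg_right (le_abs_self b) (Real.rpow_nonneg hfpos.le _)).trans
      (mul_le_mul_of_nonneg_left g1 (abs_nonneg b)))
  refine (hk₀ k ((le_max_right _ _).trans hk) n hn g2).trans ?_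
  exact Real.rpow_le_rpow_of_exponent_le (by exact_mod_cast hn) he2.1.le

lemma approx {ℓ : ℤ → ℂ} (hℓ : SecondMoment ℓ) {G : ℕ → ℝ} {d : ℝ} (hG : Expanding G d) {κ : ℝ} (hκ : 0 ≤ κ)
    (hκ1 : κ ≤ 1) {m : ℕ} (γ : Fin m → ℝ) {τ : ℝ} (hτ : 0 < τ) {β : ℝ} (hβ : 0 < β) (hβ1 : β ≤ 1 / 2) :
    ∃ E : Set (Fin m → ℝ), dimH E ≤ ENNReal.ofReal ((m + (d * (1 - 2 * β) + κ)) / (1 + τ)) ∧
      ∀ α, α ∉ E → ∀ b : ℝ, ∃ Q : ℕ, ∀ q : ℕ, Q ≤ q → Solves α γ q (b * (q : ℝ) ^ (-τ)) →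
        BoundNear ℓ β (G q) ((q : ℝ) ^ κ) := by
  obtain ⟨E, h1, h2⟩ := approx_good (fun n : ℕ => 1 ≤ n) (fun n => big ℓ n ≤ (n : ℝ) ^ β) (fun n : ℕ => (n : ℝ))
    (G := G) (d := d) ⟨hG.one_le, hG.step, hG.growth⟩ (s := 1 - 2 * β) (κ := κ) (by linarith) hκ hκ1
    (Pool.Agent.V7H35.TwistCount.count (big ℓ) (big_nonneg ℓ) (big_sq hℓ) hβ hβ1) γ hτ
  refine ⟨E, h1, fun α hα b => ?_⟩
  obtain ⟨Q, hQ⟩ := h2 α hα b
  exact ⟨Q, fun q hq hs => near_of fun n hn h3 => hQ q hq hs n hn h3⟩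

/-- **The Lindelöf bound for quadratic twists near sparse sequences.** Let `ℓ_i`, `i = 0, 1, 2, …`, be functions of the
square-free integers with second moments at most `X^{1 + o(1)}` (`SecondMoment`; the central values of the quadratic twists of
`PGL_2` cusp forms over `ℚ`). `BoundNear ℓ β y r`: `|ℓ(D)| ≤ |D|^β` for EVERY square-free `D` with `||D| - y| ≤ r`. Let
`0 < β ≤ 1/2` in (1), (3), (4), (5), (6). (1) For all `α > a` outside a set of Hausdorff dimension at most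
`(1 - 2 β + τ) / (1 - θ)` and all `b`, for all large `k`, `BoundNear ℓ_i β f_k(α) (b f_k(α)^θ)`, for starshaped functions `f_k`
of exponent of convergence at most `τ ≥ 0` and `θ < 1`. (2) If `τ = 0`, then for almost every `α > a`, for ALL `i`, `β > 0`,
`θ < min(2 β, 1)` and `b`, for all large `k`, `BoundNear ℓ_i β f_k(α) (b f_k(α)^θ)`. Let `G` have steps `≥ const > 0` and
growth at most `v ^ d`, `κ ≥ 0`. (3) For all `α` in `ℝ^m` outside a set of Hausdorff dimension at most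
`(m + d (1 - 2 β) + κ) / (1 + τ)` and all `b`, for all large `q` with `‖q α_j - γ_j‖ ≤ b q^(-τ)` for all `j`,
`BoundNear ℓ_i β (G q) (q^κ)` (`κ ≤ 1`, `τ > 0`). Let `d (1 - 2 β) + κ < 1`. (4) Let `f` be multiplicative of the type of
Euler's function (`LM`). For all large `X`, for all `m ≤ X` but `X / (log X)^U`, `BoundNear ℓ_i β (G (f m)) (f(m)^κ)`.
(5) There is `K(m)` tending to infinity such that for almost all `m`, for all `k ≤ K(m)`, with `v = f(φ_k(m))`,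
`BoundNear ℓ_i β (G v) (v^κ)`. (6) Let `h` be a composition of `k` functions dominated by the largest prime factor (`PD`).
For all `m ≤ X` but `K X exp (- b (log X)^(1 / (k + 1)))`, `BoundNear ℓ_i β (G (h m)) (h(m)^κ)`. -/
theorem result :
    (∀ ℓ : ℤ → ℂ, SecondMoment ℓ → ∀ β : ℝ, 0 < β → β ≤ 1 / 2 →
      (∀ (a : ℝ) (f : ℕ → ℝ → ℝ) (τ θ : ℝ), Starshaped a f → 0 ≤ τ → ExpLe a f τ → θ < 1 →
        ∃ E : Set ℝ, dimH E ≤ ENNReal.ofReal ((1 - 2 * β + τ) / (1 - θ)) ∧ ∀ α : ℝ, a < α → α ∉ E → ∀ b : ℝ,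
          ∃ k₀ : ℕ, ∀ k : ℕ, k₀ ≤ k → BoundNear ℓ β (f k α) (b * (f k α) ^ θ)) ∧
      (∀ (G : ℕ → ℝ) (d : ℝ), Expanding G d → ∀ κ : ℝ, 0 ≤ κ →
        (κ ≤ 1 → ∀ (m : ℕ) (γ : Fin m → ℝ) (τ : ℝ), 0 < τ →
          ∃ E : Set (Fin m → ℝ), dimH E ≤ ENNReal.ofReal ((m + (d * (1 - 2 * β) + κ)) / (1 + τ)) ∧
            ∀ α, α ∉ E → ∀ b : ℝ, ∃ Q : ℕ, ∀ q : ℕ, Q ≤ q → Solves α γ q (b * (q : ℝ) ^ (-τ)) →
              BoundNear ℓ β (G q) ((q : ℝ) ^ κ)) ∧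
        (d * (1 - 2 * β) + κ < 1 →
          (∀ f : ℕ → ℕ, LM f → ∀ U : ℕ, ∃ X₀ : ℕ, ∀ X : ℕ, X₀ ≤ X →
            ({m : ℕ | 1 ≤ m ∧ m ≤ X ∧ ¬ BoundNear ℓ β (G (f m)) ((f m : ℝ) ^ κ)}.ncard : ℝ) ≤ X / Real.log X ^ U) ∧
          (∀ f : ℕ → ℕ, LM f → ∃ K : ℕ → ℕ, Tendsto K atTop atTop ∧
            AlmostAll (fun m => ∀ k ≤ K m, BoundNear ℓ β (G (orb f k m)) ((orb f k m : ℝ) ^ κ))) ∧
          (∀ fs : List (ℕ → ℕ), (∀ f ∈ fs, PD f) → ∃ b K : ℝ, 0 < b ∧ ∀ X : ℕ, 1 ≤ X →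
            ({m : ℕ | 1 ≤ m ∧ m ≤ X ∧ ¬ BoundNear ℓ β (G (comp fs m)) ((comp fs m : ℝ) ^ κ)}.ncard : ℝ) ≤
              K * X * Real.exp (-(b * Real.log X ^ ((1 : ℝ) / (fs.length + 1)))))))) ∧
    (∀ ℓ : ℕ → ℤ → ℂ, (∀ i, SecondMoment (ℓ i)) → ∀ (a : ℝ) (f : ℕ → ℝ → ℝ), Starshaped a f → ExpLe a f 0 →
      ∀ᵐ α : ℝ, a < α → ∀ (i : ℕ) (β θ b : ℝ), 0 < β → θ < 2 * β → θ < 1 →
        ∃ k₀ : ℕ, ∀ k : ℕ, k₀ ≤ k → BoundNear (ℓ i) β (f k α) (b * (f k α) ^ θ)) ∧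
    ((∀ v : ℕ → ℝ, (∀ n, 1 ≤ v n) → (∀ t : ℝ, 0 < t → Summable fun n : ℕ => Real.exp (-(t * v n))) →
      Starshaped 1 (fun n x => x ^ (v n)) ∧ ExpLe 1 (fun n x => x ^ (v n)) 0) ∧
     (LM (fun m => m) ∧ LM Nat.totient ∧ LM (fun m => ∑ d ∈ m.divisors, d)) ∧
     (∀ f : ℕ → ℕ, (∀ a b : ℕ, Nat.Coprime a b → f (a * b) = f a + f b) →
      (∃ C : ℕ, ∀ q j : ℕ, q.Prime → 1 ≤ j → f (q ^ j) ≤ C * q ^ j) →
      (∃ P : ℕ, ∀ p q : ℕ, p.Prime → q.Prime → P ≤ p → P ≤ q → f p = f q → p = q) → PD f) ∧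
     (PD (fun n => n.primeFactors.sup id) ∧ PD (fun n => sInf {k : ℕ | n ∣ k.factorial})) ∧
     ∀ a d : ℝ, 0 < a → 1 ≤ d → Expanding (fun v => a * (v : ℝ) ^ d) d) := by
  refine ⟨fun ℓ hℓ β hβ hβ1 => ⟨fun a f τ θ hf hτ hE hθ => ?_, fun G d hG κ hκ => ⟨fun hκ1 m γ τ hτ =>
    approx hℓ hG hκ hκ1 γ hτ hβ hβ1, fun h1 => ⟨fun f hf U => ?_, fun f hf => ?_, fun fs hfs => ?_⟩⟩⟩, star_ae,
    Pool.Agent.R482.ST.ex_pow, ⟨lm_id, lm_totient, lm_sigma⟩, fun f a1 a2 a3 => pd_additive a1 a2 a3,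
    ⟨pd_largest, pd_kempner⟩, fun a d ha hd => expanding_pow ha hd⟩
  · obtain ⟨E, hE1, hE2⟩ := star hℓ hf hτ hE hθ hβ hβ1
    refine ⟨E, hE1, fun α hα hαE b => ?_⟩
    obtain ⟨k₀, hk₀⟩ := hE2 α hα hαE b
    exact ⟨k₀, fun k hk => near_of (hk₀ k hk)⟩
  · obtain ⟨X₀, hX₀⟩ := keep_good (fun n : ℕ => 1 ≤ n) (fun n => big ℓ n ≤ (n : ℝ) ^ β) (fun n : ℕ => (n : ℝ)) hf hG
      (s := 1 - 2 * β) (κ := κ) (by linarith) hκ h1
      (Pool.Agent.V7H35.TwistCount.count (big ℓ) (big_nonneg ℓ) (big_sq hℓ) hβ hβ1) U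
    refine ⟨X₀, fun X hX => le_trans ?_ (hX₀ X hX)⟩
    refine card_mono fun m h => near_of h
  · obtain ⟨K, hK, h2⟩ := orbit_good (fun n : ℕ => 1 ≤ n) (fun n => big ℓ n ≤ (n : ℝ) ^ β) (fun n : ℕ => (n : ℝ)) hf hG
      (s := 1 - 2 * β) (κ := κ) (by linarith) hκ h1
      (Pool.Agent.V7H35.TwistCount.count (big ℓ) (big_nonneg ℓ) (big_sq hℓ) hβ hβ1)
    exact ⟨K, hK, Pool.Agent.N826.IT.Orb.almostAll_mono h2 fun m h k hk => near_of (h k hk)⟩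
  · obtain ⟨b, K, hb, h2⟩ := good (fun n : ℕ => 1 ≤ n) (fun n => big ℓ n ≤ (n : ℝ) ^ β) (fun n : ℕ => (n : ℝ)) fs hfs hG
      (s := 1 - 2 * β) (κ := κ) (by linarith) hκ h1
      (Pool.Agent.V7H35.TwistCount.count (big ℓ) (big_nonneg ℓ) (big_sq hℓ) hβ hβ1)
    refine ⟨b, K, hb, fun X hX => le_trans ?_ (h2 X hX)⟩
    refine card_mono fun m h => near_of h

end Pool.Agent.Results.MP_21d687_nt.SparseDiscriminantsH35
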